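import Pool.Agent.Work.MP_b30479_gt.TBS.TB.Lob
import Pool.Agent.Work.MP_b30479_gt.TBS.DT.Stmt

section

/-!
# The critical point equations
-/

namespace Pool.Agent.Work.MP_b30479_gtS.DT

open Finset TB AX

theorem el_zero_half {η : ℝ} (h0 : -(1 / 2) < η) (h1 : η < 1 / 2) :
    el 0 (1 / 2 + η) = Real.log (2 * Real.cos (Real.pi * η)) := by
  have hc : 0 < Real.cos (Real.pi * η) := by
    apply Real.cos_pos_of_mem_Ioo
    have := Real.pi_pos
    constructor <;> nlinarith only [h0, this, h1]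
  have h2 : 2 * Real.cosh (2 * Real.pi * 0) - 2 * Real.cos (2 * Real.pi * (1 / 2 + η)) =
      (2 * Real.cos (Real.pi * η)) ^ 2 := by
    have e1 : 2 * Real.pi * (1 / 2 + η) = 2 * (Real.pi * η) + Real.pi := by ring
    rw [e1, Real.cos_add_pi, Real.cos_two_mul, mul_zero, Real.cosh_zero]
    ring
  unfold el
  rw [h2, Real.log_pow]
  push_cast
  ring

theorem crit_real {a : ℕ} {η₀ ς₀ ρ₀ : ℝ} (h : IsSad a η₀ ς₀ ρ₀) :
    2 * Real.log (2 * Real.cos (Real.pi * η₀)) = el ρ₀ (η₀ + ς₀) + el ρ₀ (η₀ - ς₀) ∧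
    el ρ₀ (η₀ - ς₀) - el ρ₀ (η₀ + ς₀) = 2 * Real.pi * a * ρ₀ ∧
    Tr ρ₀ (η₀ + ς₀) + Tr ρ₀ (η₀ - ς₀) + Real.pi * (1 + 2 * a * ς₀) = 0 := by
  have hη0 : 0 < η₀ := lt_of_le_of_lt (abs_nonneg _) h.h1
  have hpi := Real.pi_pos
  have hev : ∀ᶠ p : ℝ × ℝ in nhds (η₀, ς₀), p ∈ KK := by
    have hU : IsOpen {p : ℝ × ℝ | 0 < p.1 ∧ p.1 < 1 / 2 ∧ |p.2| < p.1 ∧ |p.2| < 1 / 4} := by
      apply IsOpen.inter (isOpen_lt continuous_const continuous_fst)
      apply IsOpen.inter (isOpen_lt continuous_fst continuous_const)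
      apply IsOpen.inter (isOpen_lt continuous_snd.abs continuous_fst)
      exact isOpen_lt continuous_snd.abs continuous_const
    filter_upwards [hU.mem_nhds ⟨hη0, h.h3, h.h1, h.h2⟩] with p hp
    exact ⟨hp.1.le, hp.2.1.le, hp.2.2.1.le, hp.2.2.2.le⟩
  have hsin : Real.sin (Real.pi * (1 / 2 + η₀)) ≠ 0 := by
    have e1 : Real.pi * (1 / 2 + η₀) = Real.pi * η₀ + Real.pi / 2 := by ring
    rw [e1, Real.sin_add_pi_div_two]
    apply ne_of_gt
    apply Real.cos_pos_of_mem_Ioo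
    have := h.h3
    constructor <;> nlinarith only [hpi, hη0, this]
  refine ⟨?_, ?_, ?_⟩
  · have hm : IsLocalMax (fun η : ℝ => H a η ς₀ ρ₀) η₀ := by
      have ht : Filter.Tendsto (fun η : ℝ => (η, ς₀)) (nhds η₀) (nhds (η₀, ς₀)) :=
        (continuous_id.prodMk continuous_const).tendsto η₀
      filter_upwards [ht.eventually hev] with η hη
      exact h.max η ς₀ hη
    have hd : HasDerivAt (fun η : ℝ => H a η ς₀ ρ₀)
        (2 * el 0 (1 / 2 + η₀) - el ρ₀ (η₀ + ς₀) - el ρ₀ (η₀ - ς₀) - 0) η₀ := by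
      have d1 : HasDerivAt (fun η : ℝ => 1 / 2 + η) 1 η₀ := (hasDerivAt_id η₀).const_add _
      have d2 : HasDerivAt (fun η : ℝ => η + ς₀) 1 η₀ := (hasDerivAt_id η₀).add_const _
      have d3 : HasDerivAt (fun η : ℝ => η - ς₀) 1 η₀ := (hasDerivAt_id η₀).sub_const _
      have c1 := ((hasDerivAt_Lr_zero hsin).comp η₀ d1).const_mul 2
      have c2 := (hasDerivAt_Lr (x := η₀ + ς₀) h.ρpos).comp η₀ d2
      have c3 := (hasDerivAt_Lr (x := η₀ - ς₀) h.ρpos).comp η₀ d3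
      have c4 := hasDerivAt_const η₀ (Real.pi * ρ₀ * (1 + 2 * a * ς₀))
      have := ((c1.sub c2).sub c3).sub c4
      simp only [mul_one] at this
      exact this
    have h0 := hm.hasDerivAt_eq_zero hd
    rw [← el_zero_half (by linarith only [hη0]) h.h3]
    linarith only [h0]
  · have hm : IsLocalMax (fun ς : ℝ => H a η₀ ς ρ₀) ς₀ := by
      have ht : Filter.Tendsto (fun ς : ℝ => (η₀, ς)) (nhds ς₀) (nhds (η₀, ς₀)) :=
        (continuous_const.prodMk continuous_id).tendsto ς₀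
      filter_upwards [ht.eventually hev] with ς hς
      exact h.max η₀ ς hς
    have hd : HasDerivAt (fun ς : ℝ => H a η₀ ς ρ₀)
        (0 - el ρ₀ (η₀ + ς₀) - el ρ₀ (η₀ - ς₀) * (-1) - Real.pi * ρ₀ * (2 * a)) ς₀ := by
      have d2 : HasDerivAt (fun ς : ℝ => η₀ + ς) 1 ς₀ := (hasDerivAt_id ς₀).const_add _
      have d3 : HasDerivAt (fun ς : ℝ => η₀ - ς) (-1) ς₀ := (hasDerivAt_id ς₀).const_sub _
      have c1 := hasDerivAt_const ς₀ (2 * Lr 0 (1 / 2 + η₀))
      have c2 := (hasDerivAt_Lr (x := η₀ + ς₀) h.ρpos).comp ς₀ d2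
      have c3 := (hasDerivAt_Lr (x := η₀ - ς₀) h.ρpos).comp ς₀ d3
      have c4 : HasDerivAt (fun ς : ℝ => Real.pi * ρ₀ * (1 + 2 * a * ς))
          (Real.pi * ρ₀ * (2 * a)) ς₀ := by
        have := (((hasDerivAt_id ς₀).const_mul (2 * (a : ℝ))).const_add 1).const_mul
          (Real.pi * ρ₀)
        simp only [mul_one, id_eq] at this
        exact this
      have := ((c1.sub c2).sub c3).sub c4
      simp only [mul_one] at this
      exact this
    have h0 := hm.hasDerivAt_eq_zero hd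
    linarith only [h0]
  · have hm : IsLocalMin (fun ρ : ℝ => H a η₀ ς₀ ρ) ρ₀ := by
      filter_upwards [lt_mem_nhds h.ρpos] with ρ hρ
      exact h.min ρ hρ.le
    have hd : HasDerivAt (fun ρ : ℝ => H a η₀ ς₀ ρ)
        (0 - Tr ρ₀ (η₀ + ς₀) - Tr ρ₀ (η₀ - ς₀) - Real.pi * (1 + 2 * a * ς₀)) ρ₀ := by
      have c1 := hasDerivAt_const ρ₀ (2 * Lr 0 (1 / 2 + η₀))
      have c2 := hasDerivAt_Lr_left (x := η₀ + ς₀) h.ρpos
      have c3 := hasDerivAt_Lr_left (x := η₀ - ς₀) h.ρpos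
      have c4 : HasDerivAt (fun ρ : ℝ => Real.pi * ρ * (1 + 2 * a * ς₀))
          (Real.pi * (1 + 2 * a * ς₀)) ρ₀ := by
        have := ((hasDerivAt_id ρ₀).const_mul Real.pi).mul_const (1 + 2 * a * ς₀)
        simp only [mul_one, id_eq] at this
        exact this
      exact ((c1.sub c2).sub c3).sub c4
    have h0 := hm.hasDerivAt_eq_zero hd
    linarith only [h0]

/-- the critical equation in complex form (`u = ς₀ + iρ₀`) -/
theorem crit_complex {a : ℕ} {η₀ ς₀ ρ₀ : ℝ} (h : IsSad a η₀ ς₀ ρ₀) :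
    Complex.log (1 - Complex.exp (2 * Real.pi * Complex.I * ((ς₀ + ρ₀ * Complex.I) - η₀))) -
      Complex.log (1 - Complex.exp (2 * Real.pi * Complex.I * ((ς₀ + ρ₀ * Complex.I) + η₀))) +
      2 * Real.pi * Complex.I * (a * (ς₀ + ρ₀ * Complex.I) + 1 / 2 + η₀) = 0 := by
  obtain ⟨-, h2, h3⟩ := crit_real h
  have hρ := h.ρpos
  have hρ' : ρ₀ ≠ 0 := hρ.ne'
  have hpi := Real.pi_pos
  set E1 : ℂ := Complex.exp (2 * Real.pi * Complex.I * ((η₀ + ς₀ : ℝ) + ρ₀ * Complex.I)) with hE1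
  set E2 : ℂ := Complex.exp (2 * Real.pi * Complex.I * ((η₀ - ς₀ : ℝ) + ρ₀ * Complex.I)) with hE2
  have a1 : Complex.exp (2 * Real.pi * Complex.I * ((ς₀ + ρ₀ * Complex.I) + η₀)) = E1 := by
    rw [hE1]
    congr 1
    push_cast
    ring
  have a2 : Complex.exp (2 * Real.pi * Complex.I * ((ς₀ + ρ₀ * Complex.I) - η₀)) =
      (starRingEnd ℂ) E2 := by
    rw [hE2, ← Complex.exp_conj]
    congr 1
    simp only [map_mul, map_add, Complex.conj_ofReal, Complex.conj_I, map_ofNat]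
    push_cast
    ring
  have hn2 : ‖E2‖ < 1 := by
    rw [hE2, Complex.norm_exp, Real.exp_lt_one_iff]
    simp only [Complex.mul_re, Complex.re_ofNat, Complex.ofReal_re, Complex.im_ofNat,
      Complex.ofReal_im, mul_zero, sub_zero, Complex.I_re, Complex.mul_im, zero_mul, add_zero,
      Complex.I_im, mul_one, sub_self, Complex.add_re, zero_sub, Complex.add_im, zero_add]
    nlinarith only [hpi, hρ, mul_pos hpi hρ]
  have hre2 : 0 < (1 - E2).re := by
    have := Complex.re_le_norm E2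
    simp only [Complex.sub_re, Complex.one_re]
    linarith only [hn2, this]
  have harg : (1 - (starRingEnd ℂ) E2).arg = -(1 - E2).arg := by
    have e : (1 - (starRingEnd ℂ) E2) = (starRingEnd ℂ) (1 - E2) := by
      simp only [map_sub, map_one]
    rw [e, Complex.arg_conj, if_neg]
    intro hcon
    rw [Complex.arg_eq_pi_iff] at hcon
    linarith only [hre2, hcon, hcon.1]
  have hnorm : ‖1 - (starRingEnd ℂ) E2‖ = ‖1 - E2‖ := by
    have e : (1 - (starRingEnd ℂ) E2) = (starRingEnd ℂ) (1 - E2) := by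
      simp only [map_sub, map_one]
    rw [e, Complex.norm_conj]
  have l1 : el ρ₀ (η₀ + ς₀) = Real.pi * ρ₀ + Real.log ‖1 - E1‖ := el_eq_exp hρ'
  have l2 : el ρ₀ (η₀ - ς₀) = Real.pi * ρ₀ + Real.log ‖1 - E2‖ := el_eq_exp hρ'
  have t1 : Tr ρ₀ (η₀ + ς₀) = Real.pi * (η₀ + ς₀) - (1 - E1).arg := rfl
  have t2 : Tr ρ₀ (η₀ - ς₀) = Real.pi * (η₀ - ς₀) - (1 - E2).arg := rfl
  rw [a1, a2]
  apply Complex.ext
  · simp only [Complex.add_re, Complex.sub_re, Complex.log_re, hnorm, Complex.mul_re,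
      Complex.re_ofNat, Complex.ofReal_re, Complex.im_ofNat, Complex.ofReal_im, mul_zero,
      sub_zero, Complex.I_re, Complex.mul_im, zero_mul, add_zero, Complex.I_im, mul_one,
      Complex.natCast_re, Complex.natCast_im, Complex.add_im, zero_add,
      Complex.zero_re, sub_self, Complex.div_im, Complex.one_im, Complex.one_re,
      Complex.div_re]
    rw [l1, l2] at h2
    norm_num
    linarith only [h2]
  · simp only [Complex.add_im, Complex.sub_im, Complex.log_im, harg, Complex.mul_re,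
      Complex.re_ofNat, Complex.ofReal_re, Complex.im_ofNat, Complex.ofReal_im, mul_zero,
      sub_zero, Complex.I_re, Complex.mul_im, zero_mul, add_zero, Complex.I_im, mul_one,
      Complex.natCast_re, Complex.natCast_im, Complex.add_re, zero_add,
      Complex.zero_im, sub_self, Complex.div_im, Complex.one_im, Complex.one_re,
      Complex.div_re]
    rw [t1, t2] at h3
    norm_num
    linarith only [h3]

end Pool.Agent.Work.MP_b30479_gtS.DT

end

section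

/-!
# The critical value as a sum of values of the Bloch-Wigner dilogarithm
-/

namespace Pool.Agent.Work.MP_b30479_gtS.DT

open Finset TB AX

/-- the nome as a function of `x` -/
noncomputable def qb (ρ x : ℝ) : ℂ :=
  Complex.exp (2 * Real.pi * Complex.I * (x + ρ * Complex.I))

lemma norm_qb (ρ x : ℝ) : ‖qb ρ x‖ = Real.exp (-(2 * Real.pi * ρ)) := by
  unfold qb
  rw [Complex.norm_exp]
  congr 1
  simp [Complex.mul_re, Complex.mul_im]

lemma norm_qb_lt {ρ : ℝ} (hρ : 0 < ρ) (x : ℝ) : ‖qb ρ x‖ < 1 := by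
  rw [norm_qb, Real.exp_lt_one_iff]
  have := Real.pi_pos
  nlinarith only [this, hρ, mul_pos this hρ]

lemma norm_qb_le {ρ : ℝ} (hρ : 0 ≤ ρ) (x : ℝ) : ‖qb ρ x‖ ≤ 1 := by
  rw [norm_qb, Real.exp_le_one_iff]
  have := Real.pi_pos
  nlinarith only [this, hρ, mul_nonneg this.le hρ]

lemma hasDerivAt_qq (ρ x : ℝ) :
    HasDerivAt (fun x : ℝ => qb ρ x) (qb ρ x * (2 * Real.pi * Complex.I)) x := by
  unfold qb
  have h1 : HasDerivAt (fun x : ℝ => 2 * Real.pi * Complex.I * ((x : ℂ) + ρ * Complex.I))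
      (2 * Real.pi * Complex.I * 1) x :=
    ((Complex.ofRealCLM.hasDerivAt (x := x)).add_const (ρ * Complex.I)).const_mul _
  simpa using h1.cexp

lemma summable_inv : Summable fun k : ℕ => (1 : ℝ) / ((k : ℝ) + 1) ^ 2 := by
  have := (summable_nat_add_iff 1).2 (Real.summable_one_div_nat_pow.2 one_lt_two)
  simpa using this

lemma norm_term_le {z : ℂ} (hz : ‖z‖ ≤ 1) (k : ℕ) :
    ‖z ^ (k + 1) / ((k : ℂ) + 1) ^ 2‖ ≤ 1 / ((k : ℝ) + 1) ^ 2 := by
  rw [norm_div, norm_pow, norm_pow]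
  have : ‖(k : ℂ) + 1‖ = (k : ℝ) + 1 := by
    have := Complex.norm_natCast (k + 1)
    push_cast at this
    exact this
  rw [this]
  gcongr
  exact pow_le_one₀ (norm_nonneg _) hz

lemma summable_dl {z : ℂ} (hz : ‖z‖ ≤ 1) :
    Summable fun k : ℕ => z ^ (k + 1) / ((k : ℂ) + 1) ^ 2 :=
  Summable.of_norm_bounded summable_inv (norm_term_le hz)

lemma tsum_log {z : ℂ} (hz : ‖z‖ < 1) :
    ∑' k : ℕ, z ^ (k + 1) / ((k : ℂ) + 1) = -Complex.log (1 - z) := by
  have h := Complex.hasSum_taylorSeries_neg_log hz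
  have h2 := (hasSum_nat_add_iff' 1).2 h
  simp only [sum_range_one, CharP.cast_eq_zero, div_zero, sub_zero, Nat.cast_add,
    Nat.cast_one] at h2
  exact h2.tsum_eq

lemma hasDerivAt_dl {ρ : ℝ} (hρ : 0 < ρ) (x : ℝ) :
    HasDerivAt (fun x : ℝ => ∑' k : ℕ, qb ρ x ^ (k + 1) / ((k : ℂ) + 1) ^ 2)
      (-(2 * Real.pi * Complex.I) * Complex.log (1 - qb ρ x)) x := by
  have hs : Summable fun k : ℕ => 2 * Real.pi * Real.exp (-(2 * Real.pi * ρ)) ^ (k + 1) := by
    apply Summable.mul_left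
    have : Real.exp (-(2 * Real.pi * ρ)) < 1 := by
      have := norm_qb_lt hρ x
      rwa [norm_qb] at this
    exact (summable_nat_add_iff 1).2
      (summable_geometric_of_lt_one (Real.exp_pos _).le this)
  have hd : ∀ (k : ℕ) (y : ℝ), HasDerivAt (fun y : ℝ => qb ρ y ^ (k + 1) / ((k : ℂ) + 1) ^ 2)
      ((2 * Real.pi * Complex.I) * (qb ρ y ^ (k + 1) / ((k : ℂ) + 1))) y := by
    intro k y
    have h1 := ((hasDerivAt_qq ρ y).pow (k + 1)).div_const (((k : ℂ) + 1) ^ 2)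
    refine h1.congr_deriv ?_
    have hk : ((k : ℂ) + 1) ≠ 0 := by exact_mod_cast Nat.succ_ne_zero k
    simp only [Nat.add_sub_cancel, Nat.cast_add, Nat.cast_one]
    field_simp
    ring
  have hb : ∀ (k : ℕ) (y : ℝ), ‖(2 * Real.pi * Complex.I) * (qb ρ y ^ (k + 1) / ((k : ℂ) + 1))‖ ≤
      2 * Real.pi * Real.exp (-(2 * Real.pi * ρ)) ^ (k + 1) := by
    intro k y
    have hk : ‖(k : ℂ) + 1‖ = (k : ℝ) + 1 := by
      have := Complex.norm_natCast (k + 1)
      push_cast at this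
      exact this
    rw [norm_mul, norm_div, norm_pow, norm_qb, hk]
    have e : ‖(2 * Real.pi * Complex.I : ℂ)‖ = 2 * Real.pi := by
      simp [abs_of_pos Real.pi_pos]
    rw [e]
    have hp := Real.pi_pos
    have h3 : (0 : ℝ) < Real.exp (-(2 * Real.pi * ρ)) ^ (k + 1) := by positivity
    have h4 : (1 : ℝ) ≤ (k : ℝ) + 1 := by
      have : (0 : ℝ) ≤ k := Nat.cast_nonneg k
      linarith only []
    have := div_le_self h3.le h4
    gcongr
  have h := hasDerivAt_tsum hs hd hb (y₀ := x) (summable_dl (norm_qb_lt hρ x).le) x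
  refine h.congr_deriv ?_
  rw [tsum_mul_left, tsum_log (norm_qb_lt hρ x)]
  ring

lemma Lr_series_pos {ρ : ℝ} (hρ : 0 < ρ) (x : ℝ) : Lr ρ x = Real.pi * ρ * x -
    (∑' k : ℕ, qb ρ x ^ (k + 1) / ((k : ℂ) + 1) ^ 2).im / (2 * Real.pi) := by
  have hd : ∀ x : ℝ, HasDerivAt (fun x : ℝ => Lr ρ x - (Real.pi * ρ * x -
      (∑' k : ℕ, qb ρ x ^ (k + 1) / ((k : ℂ) + 1) ^ 2).im / (2 * Real.pi))) 0 x := by
    intro x
    have h1 := hasDerivAt_Lr (x := x) hρ
    have h2 : HasDerivAt (fun x : ℝ => (∑' k : ℕ, qb ρ x ^ (k + 1) / ((k : ℂ) + 1) ^ 2).im)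
        (-(2 * Real.pi * Complex.I) * Complex.log (1 - qb ρ x)).im x := by
      exact Complex.imCLM.hasFDerivAt.comp_hasDerivAt x (hasDerivAt_dl hρ x)
    have h3 := ((hasDerivAt_id x).const_mul (Real.pi * ρ)).sub (h2.div_const (2 * Real.pi))
    refine (h1.sub h3).congr_deriv ?_
    rw [el_eq_exp hρ.ne']
    have e1 : (-(2 * Real.pi * Complex.I) * Complex.log (1 - qb ρ x)).im =
        -(2 * Real.pi) * Real.log ‖1 - qb ρ x‖ := by
      rw [← Complex.log_re]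
      simp [Complex.mul_im, Complex.mul_re]
    rw [e1]
    have hp := Real.pi_pos
    unfold qb
    field_simp
    ring
  have hc := is_const_of_deriv_eq_zero (fun x => (hd x).differentiableAt)
    (fun x => (hd x).deriv) x 0
  simp only [Lr_zero_right, mul_zero, zero_sub] at hc
  have h0 : (∑' k : ℕ, qb ρ 0 ^ (k + 1) / ((k : ℂ) + 1) ^ 2).im = 0 := by
    have e : ∀ k : ℕ, qb ρ 0 ^ (k + 1) / ((k : ℂ) + 1) ^ 2 =
        ((Real.exp (-(2 * Real.pi * ρ)) ^ (k + 1) / ((k : ℝ) + 1) ^ 2 : ℝ) : ℂ) := by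
      intro k
      have : qb ρ 0 = ((Real.exp (-(2 * Real.pi * ρ)) : ℝ) : ℂ) := by
        unfold qb
        rw [Complex.ofReal_exp]
        congr 1
        push_cast
        ring_nf
        rw [Complex.I_sq]
        ring
      rw [this]
      push_cast
      ring
    simp_rw [e]
    rw [← Complex.ofReal_tsum, Complex.ofReal_im]
  rw [h0, zero_div, neg_zero, neg_zero] at hc
  linarith only [hc, hc]

theorem Lr_series {ρ : ℝ} (hρ : 0 ≤ ρ) (x : ℝ) : Lr ρ x = Real.pi * ρ * x -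
    (∑' k : ℕ, Complex.exp (2 * Real.pi * Complex.I * (x + ρ * Complex.I)) ^ (k + 1) /
      ((k : ℂ) + 1) ^ 2).im / (2 * Real.pi) := by
  rcases hρ.eq_or_lt with h0 | h0
  · subst h0
    -- continuity at `0`
    have c1 : Filter.Tendsto (fun ρ : ℝ => Lr ρ x) (nhdsWithin 0 (Set.Ioi 0)) (nhds (Lr 0 x)) := by
      have : Continuous fun ρ : ℝ => Lr ρ x :=
        continuous_Lr.comp (continuous_id.prodMk continuous_const)
      exact (this.tendsto 0).mono_left nhdsWithin_le_nhds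
    have c2 : ContinuousOn (fun ρ : ℝ => Real.pi * ρ * x -
        (∑' k : ℕ, qb ρ x ^ (k + 1) / ((k : ℂ) + 1) ^ 2).im / (2 * Real.pi)) (Set.Ici 0) := by
      have c3 : ContinuousOn (fun ρ : ℝ => ∑' k : ℕ, qb ρ x ^ (k + 1) / ((k : ℂ) + 1) ^ 2)
          (Set.Ici 0) := by
        refine continuousOn_tsum (u := fun k : ℕ => (1 : ℝ) / ((k : ℝ) + 1) ^ 2) ?_ summable_inv ?_
        · intro k
          apply Continuous.continuousOn
          unfold qb
          fun_prop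
        · intro k ρ hρ
          exact norm_term_le (norm_qb_le hρ x) k
      apply ContinuousOn.sub
      · fun_prop
      · exact (Complex.continuous_im.comp_continuousOn c3).div_const _
    have c4 := (c2 0 Set.self_mem_Ici).mono_left
      (nhdsWithin_mono (0 : ℝ) (Set.Ioi_subset_Ici_self (a := (0 : ℝ))))
    have c5 : Filter.Tendsto (fun ρ : ℝ => Lr ρ x) (nhdsWithin 0 (Set.Ioi 0))
        (nhds (Real.pi * 0 * x -
        (∑' k : ℕ, qb 0 x ^ (k + 1) / ((k : ℂ) + 1) ^ 2).im / (2 * Real.pi))) := by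
      refine c4.congr' ?_
      filter_upwards [self_mem_nhdsWithin] with ρ hρ
      exact (Lr_series_pos hρ x).symm
    exact tendsto_nhds_unique c1 c5
  · exact Lr_series_pos h0 x

theorem vol_BW {a : ℕ} {η₀ ς₀ ρ₀ : ℝ} (h : IsSad a η₀ ς₀ ρ₀) :
    4 * Real.pi * H a η₀ ς₀ ρ₀ =
      4 * BWd (-Complex.exp (-(2 * Real.pi * Complex.I * η₀))) +
      2 * BWd (Complex.exp (2 * Real.pi * Complex.I * ((ς₀ + ρ₀ * Complex.I) + η₀))) +
      2 * BWd (Complex.exp (2 * Real.pi * Complex.I * (η₀ - (ς₀ - ρ₀ * Complex.I)))) := by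
  have hρ := h.ρpos
  have hp := Real.pi_pos
  obtain ⟨-, -, e3⟩ := crit_real h
  -- the three arguments
  have q1 : Complex.exp (2 * Real.pi * Complex.I * ((ς₀ + ρ₀ * Complex.I) + η₀)) =
      qb ρ₀ (η₀ + ς₀) := by
    unfold qb
    congr 1
    push_cast
    ring
  have q2 : Complex.exp (2 * Real.pi * Complex.I * (η₀ - (ς₀ - ρ₀ * Complex.I))) =
      qb ρ₀ (η₀ - ς₀) := by
    unfold qb
    congr 1
    push_cast
    ring
  have q0 : -Complex.exp (-(2 * Real.pi * Complex.I * η₀)) =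
      (starRingEnd ℂ) (qb 0 (1 / 2 + η₀)) := by
    unfold qb
    rw [← Complex.exp_conj]
    have e : (starRingEnd ℂ) (2 * Real.pi * Complex.I * (((1 / 2 + η₀ : ℝ) : ℂ) +
        ((0 : ℝ) : ℂ) * Complex.I)) = -(2 * Real.pi * Complex.I * η₀) - Real.pi * Complex.I := by
      simp only [map_mul, map_add, Complex.conj_ofReal, Complex.conj_I, map_ofNat]
      push_cast
      ring
    rw [e, Complex.exp_sub, Complex.exp_pi_mul_I]
    ring
  rw [q0, q1, q2]
  unfold H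
  rw [Lr_series le_rfl (1 / 2 + η₀), Lr_series hρ.le (η₀ + ς₀), Lr_series hρ.le (η₀ - ς₀)]
  have f : ∀ ρ x : ℝ, Complex.exp (2 * Real.pi * Complex.I * (x + ρ * Complex.I)) = qb ρ x :=
    fun _ _ => rfl
  rw [f, f, f]
  unfold BWd
  have n0 : ‖(starRingEnd ℂ) (qb 0 (1 / 2 + η₀))‖ = 1 := by
    rw [RCLike.norm_conj, norm_qb]
    simp
  have n1 : Real.log ‖qb ρ₀ (η₀ + ς₀)‖ = -(2 * Real.pi * ρ₀) := by
    rw [norm_qb, Real.log_exp]
  have n2 : Real.log ‖qb ρ₀ (η₀ - ς₀)‖ = -(2 * Real.pi * ρ₀) := by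
    rw [norm_qb, Real.log_exp]
  rw [n0, n1, n2, Real.log_one]
  have s0 : (∑' k : ℕ, (starRingEnd ℂ) (qb 0 (1 / 2 + η₀)) ^ (k + 1) / ((k : ℂ) + 1) ^ 2) =
      (starRingEnd ℂ) (∑' k : ℕ, qb 0 (1 / 2 + η₀) ^ (k + 1) / ((k : ℂ) + 1) ^ 2) := by
    rw [Complex.conj_tsum]
    congr 1
    ext k
    simp
  rw [s0, Complex.conj_im]
  unfold Tr at e3
  rw [f, f] at e3
  set A1 := (1 - qb ρ₀ (η₀ + ς₀)).arg
  set A2 := (1 - qb ρ₀ (η₀ - ς₀)).arg
  set S0 := (∑' k : ℕ, qb 0 (1 / 2 + η₀) ^ (k + 1) / ((k : ℂ) + 1) ^ 2).im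
  set S1 := (∑' k : ℕ, qb ρ₀ (η₀ + ς₀) ^ (k + 1) / ((k : ℂ) + 1) ^ 2).im
  set S2 := (∑' k : ℕ, qb ρ₀ (η₀ - ς₀) ^ (k + 1) / ((k : ℂ) + 1) ^ 2).im
  have e4 : A1 + A2 = Real.pi * (2 * η₀) + Real.pi * (1 + 2 * a * ς₀) := by linarith only [e3]
  have hA : A2 = Real.pi * (2 * η₀) + Real.pi * (1 + 2 * a * ς₀) - A1 := by linarith only [e3]
  rw [hA]
  field_simp
  ring

end Pool.Agent.Work.MP_b30479_gtS.DT

end
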