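import Pool.Agent.Work.MP_b30479_gt.TBS.TB.Lob
import Pool.Agent.Work.MP_b30479_gt.TBS.DT.Crit

section

/-!
# Concavity in `(η, ς)`
-/

namespace Pool.Agent.Work.MP_b30479_gtS.DT

open Finset TB AX

theorem convex_KK : Convex ℝ KK := by
  rintro ⟨x1, x2⟩ hx ⟨y1, y2⟩ hy s t hs ht hst
  simp only [KK, Set.mem_ofPred_eq, abs_le] at hx hy ⊢
  simp only [Prod.smul_mk, smul_eq_mul, Prod.mk_add_mk]
  obtain ⟨a1, a2, ⟨a3, a4⟩, a5, a6⟩ := hx
  obtain ⟨b1, b2, ⟨b3, b4⟩, b5, b6⟩ := hy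
  have e : t = 1 - s := by linarith only [hst]
  subst e
  refine ⟨by positivity, ?_, ⟨?_, ?_⟩, ?_, ?_⟩ <;> nlinarith only [hs, a2, b2, ht, a3, b3, a4, b4, a5, b5, a6, b6]

theorem isCompact_KK : IsCompact KK := by
  have hc : IsClosed KK := by
    have : KK = {p : ℝ × ℝ | 0 ≤ p.1} ∩ {p | p.1 ≤ 1 / 2} ∩ {p | |p.2| ≤ p.1} ∩
        {p | |p.2| ≤ 1 / 4} := by
      ext p; simp only [KK, Set.mem_ofPred_eq, Set.mem_inter_iff]; tauto
    rw [this]
    refine (((isClosed_le continuous_const continuous_fst).inter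
      (isClosed_le continuous_fst continuous_const)).inter
      (isClosed_le (continuous_abs.comp continuous_snd) continuous_fst)).inter
      (isClosed_le (continuous_abs.comp continuous_snd) continuous_const)
  refine (isCompact_Icc.prod isCompact_Icc : IsCompact
    (Set.Icc (0 : ℝ) (1 / 2) ×ˢ Set.Icc (-(1 / 4) : ℝ) (1 / 4))).of_isClosed_subset hc ?_
  rintro ⟨x, y⟩ ⟨h1, h2, _, h4⟩
  exact ⟨⟨h1, h2⟩, (abs_le.1 h4).1, (abs_le.1 h4).2⟩

theorem den_pos {ρ : ℝ} (hρ : 0 < ρ) (v : ℝ) :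
    0 < Real.cosh (2 * Real.pi * ρ) - Real.cos (2 * Real.pi * v) := by
  have h1 : 1 < Real.cosh (2 * Real.pi * ρ) := Real.one_lt_cosh.2 (by positivity)
  have h2 := Real.cos_le_one (2 * Real.pi * v)
  linarith only [h1, h2]

/-- closed form of `P + Q` -/
theorem rr_add_eq {η ς ρ : ℝ} (hρ : 0 < ρ) :
    rr ρ (η + ς) + rr ρ (η - ς) =
      2 * Real.sin (2 * Real.pi * η) *
        (Real.cosh (2 * Real.pi * ρ) * Real.cos (2 * Real.pi * ς) - Real.cos (2 * Real.pi * η)) /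
      ((Real.cosh (2 * Real.pi * ρ) - Real.cos (2 * Real.pi * (η + ς))) *
        (Real.cosh (2 * Real.pi * ρ) - Real.cos (2 * Real.pi * (η - ς)))) := by
  have d1 := den_pos hρ (η + ς)
  have d2 := den_pos hρ (η - ς)
  have e1 : 2 * Real.pi * (η + ς) = 2 * Real.pi * η + 2 * Real.pi * ς := by ring
  have e2 : 2 * Real.pi * (η - ς) = 2 * Real.pi * η - 2 * Real.pi * ς := by ring
  unfold rr
  rw [div_add_div _ _ d1.ne' d2.ne', div_left_inj' (mul_pos d1 d2).ne', e1, e2,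
    Real.sin_add, Real.sin_sub, Real.cos_add, Real.cos_sub]
  have h := Real.sin_sq_add_cos_sq (2 * Real.pi * ς)
  linear_combination (-2 * Real.sin (2 * Real.pi * η) * Real.cos (2 * Real.pi * η)) * h

/-- closed form of `P Q + tan (πη) / 2 (P + Q)` -/
theorem rr_det_eq {η ς ρ : ℝ} (hη : Real.cos (Real.pi * η) ≠ 0) (hρ : 0 < ρ) :
    rr ρ (η + ς) * rr ρ (η - ς) +
      Real.tan (Real.pi * η) / 2 * (rr ρ (η + ς) + rr ρ (η - ς)) =
      (Real.cos (2 * Real.pi * ς) ^ 2 + Real.cosh (2 * Real.pi * ρ) * Real.cos (2 * Real.pi * ς) *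
        (1 - Real.cos (2 * Real.pi * η)) - Real.cos (2 * Real.pi * η)) /
      ((Real.cosh (2 * Real.pi * ρ) - Real.cos (2 * Real.pi * (η + ς))) *
        (Real.cosh (2 * Real.pi * ρ) - Real.cos (2 * Real.pi * (η - ς)))) := by
  have d1 := den_pos hρ (η + ς)
  have d2 := den_pos hρ (η - ς)
  have e1 : 2 * Real.pi * (η + ς) = 2 * Real.pi * η + 2 * Real.pi * ς := by ring
  have e2 : 2 * Real.pi * (η - ς) = 2 * Real.pi * η - 2 * Real.pi * ς := by ring
  have hm : rr ρ (η + ς) * rr ρ (η - ς) =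
      (Real.cos (2 * Real.pi * ς) ^ 2 - Real.cos (2 * Real.pi * η) ^ 2) /
      ((Real.cosh (2 * Real.pi * ρ) - Real.cos (2 * Real.pi * (η + ς))) *
        (Real.cosh (2 * Real.pi * ρ) - Real.cos (2 * Real.pi * (η - ς)))) := by
    unfold rr
    rw [div_mul_div_comm, div_left_inj' (mul_pos d1 d2).ne', e1, e2, Real.sin_add, Real.sin_sub]
    have h := Real.sin_sq_add_cos_sq (2 * Real.pi * ς)
    have h' := Real.sin_sq_add_cos_sq (2 * Real.pi * η)
    linear_combination (-Real.cos (2 * Real.pi * η) ^ 2) * h +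
      Real.cos (2 * Real.pi * ς) ^ 2 * h'
  have ht : Real.tan (Real.pi * η) * Real.sin (2 * Real.pi * η) =
      1 - Real.cos (2 * Real.pi * η) := by
    have e3 : 2 * Real.pi * η = 2 * (Real.pi * η) := by ring
    rw [Real.tan_eq_sin_div_cos, e3, Real.sin_two_mul, Real.cos_two_mul]
    have h := Real.sin_sq_add_cos_sq (Real.pi * η)
    field_simp
    linear_combination (2 : ℝ) * h
  rw [hm, rr_add_eq hρ, ← mul_div_assoc, ← add_div, div_left_inj' (mul_pos d1 d2).ne']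
  linear_combination (Real.cosh (2 * Real.pi * ρ) * Real.cos (2 * Real.pi * ς) -
    Real.cos (2 * Real.pi * η)) * ht

theorem cos_sig_nonneg {ς : ℝ} (h : |ς| ≤ 1 / 4) : 0 ≤ Real.cos (2 * Real.pi * ς) := by
  obtain ⟨h1, h2⟩ := abs_le.1 h
  have := Real.pi_pos
  apply Real.cos_nonneg_of_neg_pi_div_two_le_of_le <;> nlinarith only [h1, this, h2]

theorem cos_sig_pos {ς : ℝ} (h : |ς| < 1 / 4) : 0 < Real.cos (2 * Real.pi * ς) := by
  obtain ⟨h1, h2⟩ := abs_lt.1 h
  have := Real.pi_pos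
  apply Real.cos_pos_of_mem_Ioo
  constructor <;> nlinarith only [h1, this, h2]

theorem cos_le_cos_sig {η ς : ℝ} (h1 : η ≤ 1 / 2) (h2 : |ς| ≤ η) :
    Real.cos (2 * Real.pi * η) ≤ Real.cos (2 * Real.pi * ς) := by
  have := Real.pi_pos
  have e : Real.cos (2 * Real.pi * ς) = Real.cos (2 * Real.pi * |ς|) := by
    rw [← Real.cos_abs (2 * Real.pi * ς), abs_mul, abs_of_pos (by positivity : 0 < 2 * Real.pi)]
  rw [e]
  apply Real.cos_le_cos_of_nonneg_of_le_pi
  · positivity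
  · nlinarith only [h1, this]
  · gcongr

theorem sin_eta_nonneg {η : ℝ} (h0 : 0 ≤ η) (h1 : η ≤ 1 / 2) :
    0 ≤ Real.sin (2 * Real.pi * η) := by
  have := Real.pi_pos
  apply Real.sin_nonneg_of_nonneg_of_le_pi
  · positivity
  · nlinarith only [h1, this]

theorem sin_eta_pos {η : ℝ} (h0 : 0 < η) (h1 : η < 1 / 2) :
    0 < Real.sin (2 * Real.pi * η) := by
  have := Real.pi_pos
  apply Real.sin_pos_of_pos_of_lt_pi
  · positivity
  · nlinarith only [h1, this]

theorem cos_eta_pos {η : ℝ} (h0 : 0 ≤ η) (h1 : η < 1 / 2) :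
    0 < Real.cos (Real.pi * η) := by
  have := Real.pi_pos
  apply Real.cos_pos_of_mem_Ioo
  constructor <;> nlinarith only [this, h0, h1]

/-- `P + Q ≥ 0` on `KK` -/
theorem rr_add_nonneg {η ς ρ : ℝ} (h : (η, ς) ∈ KK) (hρ : 0 < ρ) :
    0 ≤ rr ρ (η + ς) + rr ρ (η - ς) := by
  obtain ⟨h0, h1, h2, h3⟩ := h
  simp only at h0 h1 h2 h3
  rw [rr_add_eq hρ]
  have d1 := den_pos hρ (η + ς)
  have d2 := den_pos hρ (η - ς)
  have hX := cos_sig_nonneg h3
  have hZ := cos_le_cos_sig h1 h2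
  have hS := sin_eta_nonneg h0 h1
  have hc : 1 < Real.cosh (2 * Real.pi * ρ) := Real.one_lt_cosh.2 (by positivity)
  apply div_nonneg _ (mul_pos d1 d2).le
  apply mul_nonneg (by positivity)
  nlinarith only [hZ, hX, hc]

theorem rr_add_pos {η ς ρ : ℝ} (h0 : 0 < η) (h1 : η < 1 / 2) (h2 : |ς| ≤ η) (h3 : |ς| < 1 / 4)
    (hρ : 0 < ρ) : 0 < rr ρ (η + ς) + rr ρ (η - ς) := by
  rw [rr_add_eq hρ]
  have d1 := den_pos hρ (η + ς)
  have d2 := den_pos hρ (η - ς)
  have hX := cos_sig_pos h3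
  have hZ := cos_le_cos_sig h1.le h2
  have hS := sin_eta_pos h0 h1
  have hc : 1 < Real.cosh (2 * Real.pi * ρ) := Real.one_lt_cosh.2 (by positivity)
  apply div_pos _ (mul_pos d1 d2)
  apply mul_pos (by positivity)
  nlinarith only [hZ, hX, hc]

/-- the determinant condition -/
theorem rr_det_nonneg {η ς ρ : ℝ} (h : (η, ς) ∈ KK) (h1 : η < 1 / 2) (hρ : 0 < ρ) :
    0 ≤ rr ρ (η + ς) * rr ρ (η - ς) +
      Real.tan (Real.pi * η) / 2 * (rr ρ (η + ς) + rr ρ (η - ς)) := by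
  obtain ⟨h0, h1', h2, h3⟩ := h
  simp only at h0 h1' h2 h3
  rw [rr_det_eq (cos_eta_pos h0 h1).ne' hρ]
  have d1 := den_pos hρ (η + ς)
  have d2 := den_pos hρ (η - ς)
  have hX := cos_sig_nonneg h3
  have hZ := cos_le_cos_sig h1.le h2
  have hZ1 := Real.cos_le_one (2 * Real.pi * η)
  have hc : 1 < Real.cosh (2 * Real.pi * ρ) := Real.one_lt_cosh.2 (by positivity)
  apply div_nonneg _ (mul_pos d1 d2).le
  have k1 : 0 ≤ (Real.cosh (2 * Real.pi * ρ) - 1) *
      (Real.cos (2 * Real.pi * ς) * (1 - Real.cos (2 * Real.pi * η))) :=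
    mul_nonneg (by linarith only [hc]) (mul_nonneg hX (by linarith only [hZ1]))
  have k2 : 0 ≤ (Real.cos (2 * Real.pi * ς) + 1) *
      (Real.cos (2 * Real.pi * ς) - Real.cos (2 * Real.pi * η)) :=
    mul_nonneg (by linarith only [hX]) (by linarith only [hZ])
  nlinarith only [k1, k2]

theorem rr_det_pos {η ς ρ : ℝ} (h0 : 0 < η) (h1 : η < 1 / 2) (h2 : |ς| ≤ η) (h3 : |ς| < 1 / 4)
    (hρ : 0 < ρ) :
    0 < rr ρ (η + ς) * rr ρ (η - ς) +
      Real.tan (Real.pi * η) / 2 * (rr ρ (η + ς) + rr ρ (η - ς)) := by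
  rw [rr_det_eq (cos_eta_pos h0.le h1).ne' hρ]
  have d1 := den_pos hρ (η + ς)
  have d2 := den_pos hρ (η - ς)
  have hX := cos_sig_pos h3
  have hZ := cos_le_cos_sig h1.le h2
  have hZ1 : Real.cos (2 * Real.pi * η) < 1 := by
    have := Real.pi_pos
    rw [← Real.cos_zero]
    apply Real.cos_lt_cos_of_nonneg_of_le_pi le_rfl
    · nlinarith only [h1, this]
    · positivity
  have hc : 1 < Real.cosh (2 * Real.pi * ρ) := Real.one_lt_cosh.2 (by positivity)
  apply div_pos _ (mul_pos d1 d2)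
  have k1 : 0 < (Real.cosh (2 * Real.pi * ρ) - 1) *
      (Real.cos (2 * Real.pi * ς) * (1 - Real.cos (2 * Real.pi * η))) :=
    mul_pos (by linarith only [hc]) (mul_pos hX (by linarith only [hZ1]))
  have k2 : 0 ≤ (Real.cos (2 * Real.pi * ς) + 1) *
      (Real.cos (2 * Real.pi * ς) - Real.cos (2 * Real.pi * η)) :=
    mul_nonneg (by linarith only [hX]) (by linarith only [hZ])
  nlinarith only [k1, k2]

/-- a binary quadratic form with nonnegative trace and determinant is nonnegative -/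
theorem quad_nonneg {A B T p q : ℝ} (h1 : 0 ≤ A + B) (h2 : T ^ 2 ≤ 4 * (A * B)) :
    0 ≤ A * p ^ 2 + B * q ^ 2 + T * p * q := by
  rcases h1.lt_or_eq with h | h
  · have key : 0 ≤ (A + B) * (A * p ^ 2 + B * q ^ 2 + T * p * q) := by
      have e : (A + B) * (A * p ^ 2 + B * q ^ 2 + T * p * q) =
          (A * p + T * q / 2) ^ 2 + (B * q + T * p / 2) ^ 2 +
            (A * B - T ^ 2 / 4) * (p ^ 2 + q ^ 2) := by ring
      rw [e]
      have : 0 ≤ A * B - T ^ 2 / 4 := by linarith only [h2]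
      positivity
    exact nonneg_of_mul_nonneg_right key h
  · have hB : B = -A := by linarith only [h1, h]
    subst hB
    have hA : A = 0 := by nlinarith only [h2, sq_nonneg A, sq_nonneg T]
    subst hA
    have hT : T = 0 := by nlinarith only [h2, sq_nonneg T]
    subst hT
    simp

/-- the second derivative of `H` along a segment is nonpositive -/
theorem second_nonpos {η ς ρ : ℝ} (h : (η, ς) ∈ KK) (h1 : η < 1 / 2) (hρ : 0 < ρ) (α β : ℝ) :
    0 ≤ 2 * Real.tan (Real.pi * η) * α ^ 2 + rr ρ (η + ς) * (α + β) ^ 2 +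
      rr ρ (η - ς) * (α - β) ^ 2 := by
  have hT : 0 ≤ Real.tan (Real.pi * η) := by
    obtain ⟨h0, -, -, -⟩ := h
    simp only at h0
    rw [Real.tan_eq_sin_div_cos]
    have := Real.pi_pos
    apply div_nonneg _ (cos_eta_pos h0 h1).le
    apply Real.sin_nonneg_of_nonneg_of_le_pi
    · positivity
    · nlinarith only [this, h1]
  have k1 := rr_add_nonneg h hρ
  have k2 := rr_det_nonneg h h1 hρ
  set P := rr ρ (η + ς)
  set Q := rr ρ (η - ς)
  set T := Real.tan (Real.pi * η)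
  have := quad_nonneg (A := P + T / 2) (B := Q + T / 2) (T := T) (p := α + β) (q := α - β)
    (by linarith only [k1, hT]) (by nlinarith only [k2])
  nlinarith only [this]

/-- the first derivative of `H` along a segment -/
theorem hasDerivAt_H_seg (a : ℕ) {η ς ρ α β t : ℝ} (hρ : 0 < ρ)
    (hs : Real.sin (Real.pi * (1 / 2 + (η + t * α))) ≠ 0) :
    HasDerivAt (fun t => H a (η + t * α) (ς + t * β) ρ)
      (2 * (el 0 (1 / 2 + (η + t * α)) * α) -
        el ρ ((η + t * α) + (ς + t * β)) * (α + β) -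
        el ρ ((η + t * α) - (ς + t * β)) * (α - β) - Real.pi * ρ * (2 * a * β)) t := by
  have l1 : HasDerivAt (fun t : ℝ => η + t * α) α t := by
    simpa using ((hasDerivAt_id t).mul_const α).const_add η
  have l2 : HasDerivAt (fun t : ℝ => ς + t * β) β t := by
    simpa using ((hasDerivAt_id t).mul_const β).const_add ς
  have m1 := (hasDerivAt_Lr_zero hs).comp t (l1.const_add (1 / 2))
  have m2 := (hasDerivAt_Lr (ρ := ρ) (x := (η + t * α) + (ς + t * β)) hρ).comp t (l1.add l2)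
  have m3 := (hasDerivAt_Lr (ρ := ρ) (x := (η + t * α) - (ς + t * β)) hρ).comp t (l1.sub l2)
  have m4 := ((l2.const_mul (2 * (a : ℝ))).const_add 1).const_mul (Real.pi * ρ)
  exact (((m1.const_mul 2).sub m2).sub m3).sub m4

/-- the second derivative of `H` along a segment -/
theorem hasDerivAt_H_seg' (a : ℕ) {η ς ρ α β t : ℝ} (hρ : 0 < ρ)
    (hs : Real.sin (Real.pi * (1 / 2 + (η + t * α))) ≠ 0) :
    HasDerivAt (fun t => 2 * (el 0 (1 / 2 + (η + t * α)) * α) -
        el ρ ((η + t * α) + (ς + t * β)) * (α + β) -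
        el ρ ((η + t * α) - (ς + t * β)) * (α - β) - Real.pi * ρ * (2 * a * β))
      (-(Real.pi * (2 * Real.tan (Real.pi * (η + t * α)) * α ^ 2 +
        rr ρ ((η + t * α) + (ς + t * β)) * (α + β) ^ 2 +
        rr ρ ((η + t * α) - (ς + t * β)) * (α - β) ^ 2))) t := by
  have l1 : HasDerivAt (fun t : ℝ => η + t * α) α t := by
    simpa using ((hasDerivAt_id t).mul_const α).const_add η
  have l2 : HasDerivAt (fun t : ℝ => ς + t * β) β t := by
    simpa using ((hasDerivAt_id t).mul_const β).const_add ς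
  have m1 := (hasDerivAt_el_zero hs).comp t (l1.const_add (1 / 2))
  have m2 := (hasDerivAt_el (ρ := ρ) (v := (η + t * α) + (ς + t * β)) hρ).comp t (l1.add l2)
  have m3 := (hasDerivAt_el (ρ := ρ) (v := (η + t * α) - (ς + t * β)) hρ).comp t (l1.sub l2)
  have key := ((((m1.mul_const α).const_mul 2).sub (m2.mul_const (α + β))).sub
    (m3.mul_const (α - β))).sub_const (Real.pi * ρ * (2 * a * β))
  refine key.congr_deriv ?_
  have e1 : Real.pi * (1 / 2 + (η + t * α)) = Real.pi * (η + t * α) + Real.pi / 2 := by ring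
  rw [e1, Real.cos_add_pi_div_two, Real.sin_add_pi_div_two, Real.tan_eq_sin_div_cos]
  ring

/-- `H` along a segment is concave -/
theorem concaveOn_seg (a : ℕ) {η ς ρ α β : ℝ} (hρ : 0 < ρ)
    (h : ∀ t ∈ Set.Ioo (0 : ℝ) 1, (η + t * α, ς + t * β) ∈ KK ∧ η + t * α < 1 / 2) :
    ConcaveOn ℝ (Set.Icc (0 : ℝ) 1) (fun t => H a (η + t * α) (ς + t * β) ρ) := by
  have hs : ∀ t ∈ Set.Ioo (0 : ℝ) 1, Real.sin (Real.pi * (1 / 2 + (η + t * α))) ≠ 0 := by
    intro t ht
    obtain ⟨⟨h0, -, -, -⟩, h1⟩ := h t ht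
    simp only at h0
    have e1 : Real.pi * (1 / 2 + (η + t * α)) = Real.pi * (η + t * α) + Real.pi / 2 := by ring
    rw [e1, Real.sin_add_pi_div_two]
    exact (cos_eta_pos h0 h1).ne'
  have hd : ∀ t ∈ Set.Ioo (0 : ℝ) 1, deriv (fun t => H a (η + t * α) (ς + t * β) ρ) t =
      2 * (el 0 (1 / 2 + (η + t * α)) * α) -
        el ρ ((η + t * α) + (ς + t * β)) * (α + β) -
        el ρ ((η + t * α) - (ς + t * β)) * (α - β) - Real.pi * ρ * (2 * a * β) :=
    fun t ht => (hasDerivAt_H_seg a hρ (hs t ht)).deriv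
  have hev : ∀ t ∈ Set.Ioo (0 : ℝ) 1, deriv (fun t => H a (η + t * α) (ς + t * β) ρ) =ᶠ[nhds t]
      fun t => 2 * (el 0 (1 / 2 + (η + t * α)) * α) -
        el ρ ((η + t * α) + (ς + t * β)) * (α + β) -
        el ρ ((η + t * α) - (ς + t * β)) * (α - β) - Real.pi * ρ * (2 * a * β) := by
    intro t ht
    filter_upwards [isOpen_Ioo.mem_nhds ht] with t' ht' using hd t' ht'
  have hd2 : ∀ t ∈ Set.Ioo (0 : ℝ) 1,
      HasDerivAt (deriv (fun t => H a (η + t * α) (ς + t * β) ρ))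
      (-(Real.pi * (2 * Real.tan (Real.pi * (η + t * α)) * α ^ 2 +
        rr ρ ((η + t * α) + (ς + t * β)) * (α + β) ^ 2 +
        rr ρ ((η + t * α) - (ς + t * β)) * (α - β) ^ 2))) t :=
    fun t ht => (hasDerivAt_H_seg' a hρ (hs t ht)).congr_of_eventuallyEq (hev t ht)
  apply concaveOn_of_deriv2_nonpos (convex_Icc 0 1)
  · have hc : Continuous fun t : ℝ => ((η + t * α, ς + t * β, ρ) : ℝ × ℝ × ℝ) := by fun_prop
    exact (Continuous.comp (continuous_H a) hc).continuousOn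
  · rw [interior_Icc]
    exact fun t ht => (hasDerivAt_H_seg a hρ (hs t ht)).differentiableAt.differentiableWithinAt
  · rw [interior_Icc]
    exact fun t ht => (hd2 t ht).differentiableAt.differentiableWithinAt
  · rw [interior_Icc]
    intro t ht
    simp only [Function.iterate_succ, Function.iterate_zero, Function.comp_apply, id_eq,
      (hd2 t ht).deriv]
    have := second_nonpos (h t ht).1 (h t ht).2 hρ α β
    have := Real.pi_pos
    nlinarith

theorem concaveOn_H_pos (a : ℕ) {ρ : ℝ} (hρ : 0 < ρ) :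
    ConcaveOn ℝ KK (fun p : ℝ × ℝ => H a p.1 p.2 ρ) := by
  refine ⟨convex_KK, ?_⟩
  rintro ⟨x1, x2⟩ hx ⟨y1, y2⟩ hy s t hs ht hst
  simp only [Prod.smul_mk, smul_eq_mul, Prod.mk_add_mk]
  by_cases hb : x1 = 1 / 2 ∧ y1 = 1 / 2
  · obtain ⟨rfl, rfl⟩ := hb
    have e0 : ∀ ς : ℝ, H a (1 / 2) ς ρ = 2 * Lr 0 1 - 2 * (Real.pi * ρ) -
        Real.pi * ρ * (2 * a * ς) := by
      intro ς
      unfold H
      have := Lr_half_add hρ.le ς
      have e : (1 / 2 + 1 / 2 : ℝ) = 1 := by norm_num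
      rw [e]
      linarith only [this]
    have e1 : s * (1 / 2) + t * (1 / 2) = (1 / 2 : ℝ) := by rw [← add_mul, hst, one_mul]
    rw [e1, e0, e0, e0]
    apply le_of_eq
    have : t = 1 - s := by linarith only [hst]
    subst this
    ring
  · have key : ∀ r ∈ Set.Ioo (0 : ℝ) 1,
        (x1 + r * (y1 - x1), x2 + r * (y2 - x2)) ∈ KK ∧ x1 + r * (y1 - x1) < 1 / 2 := by
      intro r hr
      constructor
      · have := convex_KK hx hy (a := 1 - r) (b := r) (by linarith only [hr, hr.2]) hr.1.le (by ring)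
        simp only [Prod.smul_mk, smul_eq_mul, Prod.mk_add_mk] at this
        have e1 : (1 - r) * x1 + r * y1 = x1 + r * (y1 - x1) := by ring
        have e2 : (1 - r) * x2 + r * y2 = x2 + r * (y2 - x2) := by ring
        rwa [e1, e2] at this
      · have hx1 := hx.2.1
        have hy1 := hy.2.1
        simp only at hx1 hy1
        rcases hx1.lt_or_eq with h | h
        · nlinarith only [hy1, hr, h, hr.1, hr.2, mul_pos hr.1 (sub_pos.2 hr.2)]
        · rcases hy1.lt_or_eq with h' | h'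
          · subst h; nlinarith only [h', hr, hr.1, hr.2]
          · exact absurd ⟨h, h'⟩ hb
    have hc := concaveOn_seg a hρ key
    have := hc.2 (x := 0) (by simp) (y := 1) (by simp) hs ht hst
    simp only [smul_eq_mul, mul_zero, zero_mul, add_zero, mul_one, zero_add, one_mul] at this
    have e1 : s * x1 + t * y1 = x1 + t * (y1 - x1) := by
      have : s = 1 - t := by linarith only [hst]
      subst this; ring
    have e2 : s * x2 + t * y2 = x2 + t * (y2 - x2) := by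
      have : s = 1 - t := by linarith only [hst]
      subst this; ring
    have e3 : x1 + (y1 - x1) = y1 := by ring
    have e4 : x2 + (y2 - x2) = y2 := by ring
    rw [e3, e4] at this
    rw [e1, e2]
    exact this

theorem concaveOn_H (a : ℕ) {ρ : ℝ} (hρ : 0 ≤ ρ) :
    ConcaveOn ℝ KK (fun p : ℝ × ℝ => H a p.1 p.2 ρ) := by
  rcases hρ.lt_or_eq with h | h
  · exact concaveOn_H_pos a h
  subst h
  refine ⟨convex_KK, ?_⟩
  intro x hx y hy s t hs ht hst
  have hlim : ∀ p : ℝ × ℝ, Filter.Tendsto (fun ρ : ℝ => H a p.1 p.2 ρ)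
      (nhdsWithin 0 (Set.Ioi 0)) (nhds (H a p.1 p.2 0)) := by
    intro p
    have hc : Continuous fun ρ : ℝ => ((p.1, p.2, ρ) : ℝ × ℝ × ℝ) := by fun_prop
    have hc' := Continuous.comp (continuous_H a) hc
    exact (hc'.tendsto 0).mono_left nhdsWithin_le_nhds
  refine le_of_tendsto_of_tendsto (((hlim x).const_smul s).add ((hlim y).const_smul t))
    (hlim (s • x + t • y)) ?_
  filter_upwards [self_mem_nhdsWithin] with ρ hρ
  exact (concaveOn_H_pos a hρ).2 hx hy hs ht hst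

end Pool.Agent.Work.MP_b30479_gtS.DT

end

section

/-!
# Convexity in `ρ`
-/

namespace Pool.Agent.Work.MP_b30479_gtS.DT

open Finset TB AX

theorem hasDerivAt_H_rho (a : ℕ) {η ς ρ : ℝ} (hρ : 0 < ρ) :
    HasDerivAt (fun ρ : ℝ => H a η ς ρ)
      (-Tr ρ (η + ς) - Tr ρ (η - ς) - Real.pi * (1 + 2 * a * ς)) ρ := by
  have m1 := hasDerivAt_Lr_left (ρ := ρ) (x := η + ς) hρ
  have m2 := hasDerivAt_Lr_left (ρ := ρ) (x := η - ς) hρ
  have m3 : HasDerivAt (fun ρ : ℝ => Real.pi * ρ * (1 + 2 * a * ς))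
      (Real.pi * (1 + 2 * a * ς)) ρ := by
    simpa using ((hasDerivAt_id ρ).const_mul Real.pi).mul_const (1 + 2 * a * ς)
  have key := ((m1.const_sub (2 * Lr 0 (1 / 2 + η))).sub m2).sub m3
  exact key

theorem hasDerivAt_H_rho' (a : ℕ) {η ς ρ : ℝ} (hρ : 0 < ρ) :
    HasDerivAt (fun ρ : ℝ => -Tr ρ (η + ς) - Tr ρ (η - ς) - Real.pi * (1 + 2 * a * ς))
      (Real.pi * (rr ρ (η + ς) + rr ρ (η - ς))) ρ := by
  have m1 := hasDerivAt_Tr_left (ρ := ρ) (x := η + ς) hρ
  have m2 := hasDerivAt_Tr_left (ρ := ρ) (x := η - ς) hρ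
  refine ((m1.neg.sub m2).sub_const _).congr_deriv ?_
  ring

theorem convexOn_H (a : ℕ) {η ς : ℝ} (h : (η, ς) ∈ KK) :
    ConvexOn ℝ (Set.Ici 0) (fun ρ : ℝ => H a η ς ρ) := by
  have hd : ∀ ρ ∈ Set.Ioi (0 : ℝ), HasDerivAt (deriv fun ρ : ℝ => H a η ς ρ)
      (Real.pi * (rr ρ (η + ς) + rr ρ (η - ς))) ρ := by
    intro ρ hρ
    refine (hasDerivAt_H_rho' a hρ).congr_of_eventuallyEq ?_
    filter_upwards [isOpen_Ioi.mem_nhds hρ] with r hr
    exact (hasDerivAt_H_rho a hr).deriv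
  apply convexOn_of_deriv2_nonneg (convex_Ici 0)
  · have hc : Continuous fun r : ℝ => ((η, ς, r) : ℝ × ℝ × ℝ) := by fun_prop
    exact (Continuous.comp (continuous_H a) hc).continuousOn
  · rw [interior_Ici]
    exact fun ρ hρ => (hasDerivAt_H_rho a hρ).differentiableAt.differentiableWithinAt
  · rw [interior_Ici]
    exact fun ρ hρ => (hd ρ hρ).differentiableAt.differentiableWithinAt
  · rw [interior_Ici]
    intro ρ hρ
    simp only [Function.iterate_succ, Function.iterate_zero, Function.comp_apply, id_eq,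
      (hd ρ hρ).deriv]
    have := rr_add_nonneg h hρ
    have := Real.pi_pos
    positivity

end Pool.Agent.Work.MP_b30479_gtS.DT

end

section

/-!
# Quadratic bound at the saddle point
-/

namespace Pool.Agent.Work.MP_b30479_gtS.DT

open Finset TB AX

/-- the lower bound of the Hessian form -/
noncomputable def mq (ρ η ς : ℝ) : ℝ :=
  (rr ρ (η + ς) * rr ρ (η - ς) + Real.tan (Real.pi * η) / 2 * (rr ρ (η + ς) + rr ρ (η - ς))) /
    (rr ρ (η + ς) + rr ρ (η - ς) + Real.tan (Real.pi * η))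

theorem tan_eta_pos {η : ℝ} (h0 : 0 < η) (h1 : η < 1 / 2) : 0 < Real.tan (Real.pi * η) := by
  have := Real.pi_pos
  apply Real.tan_pos_of_pos_of_lt_pi_div_two
  · positivity
  · nlinarith only [h1, this]

theorem mq_pos {η ς ρ : ℝ} (h0 : 0 < η) (h1 : η < 1 / 2) (h2 : |ς| ≤ η) (h3 : |ς| < 1 / 4)
    (hρ : 0 < ρ) : 0 < mq ρ η ς := by
  have k1 := rr_add_pos h0 h1 h2 h3 hρ
  have k2 := rr_det_pos h0 h1 h2 h3 hρ
  have k3 := tan_eta_pos h0 h1
  exact div_pos k2 (by linarith only [k1, k3])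

theorem mq_bound {η ς ρ : ℝ} (h0 : 0 < η) (h1 : η < 1 / 2) (h2 : |ς| ≤ η) (h3 : |ς| < 1 / 4)
    (hρ : 0 < ρ) (α β : ℝ) :
    2 * mq ρ η ς * (α ^ 2 + β ^ 2) ≤
      2 * Real.tan (Real.pi * η) * α ^ 2 + rr ρ (η + ς) * (α + β) ^ 2 +
      rr ρ (η - ς) * (α - β) ^ 2 := by
  have k1 := rr_add_pos h0 h1 h2 h3 hρ
  have k3 := tan_eta_pos h0 h1
  unfold mq
  set P := rr ρ (η + ς)
  set Q := rr ρ (η - ς)
  set T := Real.tan (Real.pi * η)
  have hS : 0 < P + Q + T := by linarith only [k1, k3]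
  have e : 2 * ((P * Q + T / 2 * (P + Q)) / (P + Q + T)) * (α ^ 2 + β ^ 2) =
      (2 * (P * Q + T / 2 * (P + Q)) * (α ^ 2 + β ^ 2)) / (P + Q + T) := by ring
  rw [e, div_le_iff₀ hS]
  have e2 : (2 * T * α ^ 2 + P * (α + β) ^ 2 + Q * (α - β) ^ 2) * (P + Q + T) -
      2 * (P * Q + T / 2 * (P + Q)) * (α ^ 2 + β ^ 2) =
      ((P + T / 2) * (α + β) + T * (α - β) / 2) ^ 2 +
      ((Q + T / 2) * (α - β) + T * (α + β) / 2) ^ 2 := by ring
  nlinarith only [sq_nonneg ((P + T / 2) * (α + β) + T * (α - β) / 2),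
    sq_nonneg ((Q + T / 2) * (α - β) + T * (α + β) / 2)]

theorem continuous_rr {ρ : ℝ} (hρ : 0 < ρ) : Continuous (rr ρ) := by
  unfold rr
  apply Continuous.div (by fun_prop) (by fun_prop)
  intro v
  exact (den_pos hρ v).ne'

theorem continuousAt_mq {η ς ρ : ℝ} (h0 : 0 < η) (h1 : η < 1 / 2) (h2 : |ς| ≤ η)
    (h3 : |ς| < 1 / 4) (hρ : 0 < ρ) : ContinuousAt (fun p : ℝ × ℝ => mq ρ p.1 p.2) (η, ς) := by
  have k1 := rr_add_pos h0 h1 h2 h3 hρ
  have k3 := tan_eta_pos h0 h1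
  have c1 : ContinuousAt (fun p : ℝ × ℝ => rr ρ (p.1 + p.2)) (η, ς) :=
    (Continuous.comp (continuous_rr hρ) (by fun_prop :
      Continuous fun p : ℝ × ℝ => p.1 + p.2)).continuousAt
  have c2 : ContinuousAt (fun p : ℝ × ℝ => rr ρ (p.1 - p.2)) (η, ς) :=
    (Continuous.comp (continuous_rr hρ) (by fun_prop :
      Continuous fun p : ℝ × ℝ => p.1 - p.2)).continuousAt
  have c3 : ContinuousAt (fun p : ℝ × ℝ => Real.tan (Real.pi * p.1)) (η, ς) := by
    have hc : Continuous fun p : ℝ × ℝ => Real.pi * p.1 := by fun_prop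
    exact ContinuousAt.comp (g := Real.tan)
      (Real.continuousAt_tan.2 (cos_eta_pos h0.le h1).ne') hc.continuousAt
  unfold mq
  refine ((c1.mul c2).add ((c3.div_const 2).mul (c1.add c2))).div ((c1.add c2).add c3) ?_
  simp only
  linarith only [k1, k3]

/-- the quadratic bound near the saddle point -/
theorem quad_local {a : ℕ} {η₀ ς₀ ρ₀ : ℝ} (h : IsSad a η₀ ς₀ ρ₀) : ∃ r c : ℝ, 0 < r ∧ r < 1 ∧
    0 < c ∧ ∀ α β : ℝ, |α| ≤ r → |β| ≤ r →
      H a (η₀ + α) (ς₀ + β) ρ₀ ≤ H a η₀ ς₀ ρ₀ - c * (α ^ 2 + β ^ 2) := by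
  have hη : 0 < η₀ := lt_of_le_of_lt (abs_nonneg _) h.h1
  have hm := mq_pos hη h.h3 h.h1.le h.h2 h.ρpos
  have hc := continuousAt_mq hη h.h3 h.h1.le h.h2 h.ρpos
  have ev : ∀ᶠ p : ℝ × ℝ in nhds (η₀, ς₀), (0 < p.1 ∧ p.1 < 1 / 2 ∧ |p.2| < p.1 ∧
      |p.2| < 1 / 4) ∧ mq ρ₀ η₀ ς₀ / 2 < mq ρ₀ p.1 p.2 := by
    have i1 : ∀ᶠ p : ℝ × ℝ in nhds (η₀, ς₀), 0 < p.1 :=
      (isOpen_lt continuous_const continuous_fst).mem_nhds hη
    have i2 : ∀ᶠ p : ℝ × ℝ in nhds (η₀, ς₀), p.1 < 1 / 2 :=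
      (isOpen_lt continuous_fst continuous_const).mem_nhds h.h3
    have i3 : ∀ᶠ p : ℝ × ℝ in nhds (η₀, ς₀), |p.2| < p.1 :=
      (isOpen_lt (continuous_abs.comp continuous_snd) continuous_fst).mem_nhds h.h1
    have i4 : ∀ᶠ p : ℝ × ℝ in nhds (η₀, ς₀), |p.2| < 1 / 4 :=
      (isOpen_lt (continuous_abs.comp continuous_snd) continuous_const).mem_nhds h.h2
    have i5 : ∀ᶠ p : ℝ × ℝ in nhds (η₀, ς₀), mq ρ₀ η₀ ς₀ / 2 < mq ρ₀ p.1 p.2 :=
      hc.eventually (lt_mem_nhds (by simp only; linarith only [hm]))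
    filter_upwards [i1, i2, i3, i4, i5] with p a1 a2 a3 a4 a5 using ⟨⟨a1, a2, a3, a4⟩, a5⟩
  obtain ⟨r₁, hr₁, hr⟩ := Metric.nhds_basis_closedBall.eventually_iff.1 ev
  set r := min r₁ (1 / 2) with hrdef
  have hr0 : 0 < r := lt_min hr₁ (by norm_num)
  have hr2 : ∀ α β : ℝ, |α| ≤ r → |β| ≤ r → (0 < η₀ + α ∧ η₀ + α < 1 / 2 ∧ |ς₀ + β| < η₀ + α ∧
      |ς₀ + β| < 1 / 4) ∧ mq ρ₀ η₀ ς₀ / 2 < mq ρ₀ (η₀ + α) (ς₀ + β) := by
    intro α β hα hβ
    have := @hr (η₀ + α, ς₀ + β) (by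
      rw [Metric.mem_closedBall, Prod.dist_eq, Real.dist_eq, Real.dist_eq]
      simp only [add_sub_cancel_left]
      exact max_le (hα.trans (min_le_left _ _)) (hβ.trans (min_le_left _ _)))
    exact this
  set c := Real.pi * (mq ρ₀ η₀ ς₀ / 2) with hcdef
  have hc0 : 0 < c := by positivity
  refine ⟨r, c, hr0, lt_of_le_of_lt (min_le_right _ _) (by norm_num), hc0, ?_⟩
  intro α β hα hβ
  set K := c * (α ^ 2 + β ^ 2) with hK
  -- points of the segment
  have hseg : ∀ t ∈ Set.Icc (-1 : ℝ) 1, |t * α| ≤ r ∧ |t * β| ≤ r := by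
    intro t ht
    have ht' : |t| ≤ 1 := abs_le.2 ht
    constructor
    · rw [abs_mul]; nlinarith only [hr0, ht', hα, abs_nonneg t, abs_nonneg α]
    · rw [abs_mul]; nlinarith only [hr0, ht', hβ, abs_nonneg t, abs_nonneg β]
  have hsin : ∀ t ∈ Set.Icc (-1 : ℝ) 1, Real.sin (Real.pi * (1 / 2 + (η₀ + t * α))) ≠ 0 := by
    intro t ht
    obtain ⟨⟨b0, b1, -, -⟩, -⟩ := hr2 _ _ (hseg t ht).1 (hseg t ht).2
    have e1 : Real.pi * (1 / 2 + (η₀ + t * α)) = Real.pi * (η₀ + t * α) + Real.pi / 2 := by ring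
    rw [e1, Real.sin_add_pi_div_two]
    exact (cos_eta_pos b0.le b1).ne'
  have hd : ∀ t ∈ Set.Icc (-1 : ℝ) 1, _ :=
    fun t ht => hasDerivAt_H_seg (ς := ς₀) (β := β) a h.ρpos (hsin t ht)
  have hd' : ∀ t ∈ Set.Icc (-1 : ℝ) 1, _ :=
    fun t ht => hasDerivAt_H_seg' (ς := ς₀) (β := β) a h.ρpos (hsin t ht)
  set g : ℝ → ℝ := fun t => H a (η₀ + t * α) (ς₀ + t * β) ρ₀ with hg
  set g' : ℝ → ℝ := fun t => 2 * (el 0 (1 / 2 + (η₀ + t * α)) * α) -
        el ρ₀ ((η₀ + t * α) + (ς₀ + t * β)) * (α + β) -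
        el ρ₀ ((η₀ + t * α) - (ς₀ + t * β)) * (α - β) - Real.pi * ρ₀ * (2 * a * β) with hg'
  -- the derivative vanishes at the saddle point
  have hg0 : g' 0 = 0 := by
    have hmax : IsLocalMax g 0 := by
      have : Set.Icc (-1 : ℝ) 1 ∈ nhds (0 : ℝ) := Icc_mem_nhds (by norm_num) (by norm_num)
      filter_upwards [this] with t ht
      obtain ⟨⟨b0, b1, b2, b3⟩, -⟩ := hr2 _ _ (hseg t ht).1 (hseg t ht).2
      have := h.max (η₀ + t * α) (ς₀ + t * β) ⟨b0.le, b1.le, b2.le, b3.le⟩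
      simpa [hg] using this
    exact hmax.hasDerivAt_eq_zero (hd 0 (by norm_num))
  -- first step: the derivative is at most `-2 K t`
  have hs1 : AntitoneOn (fun t => g' t + 2 * K * t) (Set.Icc 0 1) := by
    have hD : ∀ t ∈ Set.Icc (0 : ℝ) 1, HasDerivAt (fun t => g' t + 2 * K * t)
        (-(Real.pi * (2 * Real.tan (Real.pi * (η₀ + t * α)) * α ^ 2 +
          rr ρ₀ ((η₀ + t * α) + (ς₀ + t * β)) * (α + β) ^ 2 +
          rr ρ₀ ((η₀ + t * α) - (ς₀ + t * β)) * (α - β) ^ 2)) + 2 * K) t := by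
      intro t ht
      have i1 := hd' t ⟨by linarith only [ht, ht.1], ht.2⟩
      have i2 : HasDerivAt (fun t : ℝ => 2 * K * t) (2 * K) t := by
        simpa using (hasDerivAt_id t).const_mul (2 * K)
      exact i1.add i2
    apply antitoneOn_of_deriv_nonpos (convex_Icc 0 1)
    · exact fun t ht => (hD t ht).continuousAt.continuousWithinAt
    · rw [interior_Icc]
      exact fun t ht => (hD t (Set.Ioo_subset_Icc_self ht)).differentiableAt.differentiableWithinAt
    · rw [interior_Icc]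
      intro t ht
      rw [(hD t (Set.Ioo_subset_Icc_self ht)).deriv]
      have ht' : t ∈ Set.Icc (-1 : ℝ) 1 := ⟨by linarith only [ht, ht.1], ht.2.le⟩
      obtain ⟨⟨b0, b1, b2, b3⟩, b4⟩ := hr2 _ _ (hseg t ht').1 (hseg t ht').2
      have := mq_bound b0 b1 b2.le b3 h.ρpos α β
      have h1 : mq ρ₀ η₀ ς₀ / 2 * (α ^ 2 + β ^ 2) ≤
          mq ρ₀ (η₀ + t * α) (ς₀ + t * β) * (α ^ 2 + β ^ 2) :=
        mul_le_mul_of_nonneg_right b4.le (by positivity)
      have h2 : 2 * (mq ρ₀ η₀ ς₀ / 2 * (α ^ 2 + β ^ 2)) ≤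
          2 * Real.tan (Real.pi * (η₀ + t * α)) * α ^ 2 +
          rr ρ₀ ((η₀ + t * α) + (ς₀ + t * β)) * (α + β) ^ 2 +
          rr ρ₀ ((η₀ + t * α) - (ς₀ + t * β)) * (α - β) ^ 2 := by linarith only [this, h1]
      have h3 := mul_le_mul_of_nonneg_left h2 Real.pi_pos.le
      have h4 : 2 * K = Real.pi * (2 * (mq ρ₀ η₀ ς₀ / 2 * (α ^ 2 + β ^ 2))) := by
        rw [hK, hcdef]; ring
      linarith only [h3, h4]
  have hs2 : ∀ t ∈ Set.Icc (0 : ℝ) 1, g' t + 2 * K * t ≤ 0 := by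
    intro t ht
    have := hs1 (by norm_num : (0 : ℝ) ∈ Set.Icc (0 : ℝ) 1) ht ht.1
    simp only [hg0, mul_zero, add_zero] at this
    exact this
  have hs3 : AntitoneOn (fun t => g t + K * t ^ 2) (Set.Icc 0 1) := by
    have hD : ∀ t ∈ Set.Icc (0 : ℝ) 1, HasDerivAt (fun t => g t + K * t ^ 2)
        (g' t + 2 * K * t) t := by
      intro t ht
      have i1 := hd t ⟨by linarith only [ht, ht.1], ht.2⟩
      have i2 : HasDerivAt (fun t : ℝ => K * t ^ 2) (2 * K * t) t := by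
        have := (hasDerivAt_pow 2 t).const_mul K
        refine this.congr_deriv ?_
        norm_num
        ring
      exact i1.add i2
    apply antitoneOn_of_deriv_nonpos (convex_Icc 0 1)
    · exact fun t ht => (hD t ht).continuousAt.continuousWithinAt
    · rw [interior_Icc]
      exact fun t ht => (hD t (Set.Ioo_subset_Icc_self ht)).differentiableAt.differentiableWithinAt
    · rw [interior_Icc]
      intro t ht
      rw [(hD t (Set.Ioo_subset_Icc_self ht)).deriv]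
      exact hs2 t (Set.Ioo_subset_Icc_self ht)
  have := hs3 (by norm_num : (0 : ℝ) ∈ Set.Icc (0 : ℝ) 1)
    (by norm_num : (1 : ℝ) ∈ Set.Icc (0 : ℝ) 1) zero_le_one
  simp only [hg, one_mul, zero_mul, add_zero] at this
  norm_num at this
  linarith only [this]

/-- the quadratic bound on `KK` -/
theorem quad_KK {a : ℕ} {η₀ ς₀ ρ₀ : ℝ} (h : IsSad a η₀ ς₀ ρ₀) : ∃ c : ℝ, 0 < c ∧
    ∀ η ς : ℝ, (η, ς) ∈ KK →
      H a η ς ρ₀ ≤ H a η₀ ς₀ ρ₀ - c * ((η - η₀) ^ 2 + (ς - ς₀) ^ 2) := by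
  obtain ⟨r, c, hr, hr1, hc, hq⟩ := quad_local h
  have hη : 0 < η₀ := lt_of_le_of_lt (abs_nonneg _) h.h1
  have h0 : (η₀, ς₀) ∈ KK := ⟨hη.le, h.h3.le, h.h1.le, h.h2.le⟩
  refine ⟨c * r, by positivity, ?_⟩
  intro η ς hp
  have k1 := (concaveOn_H a h.ρpos.le).2 h0 hp (by linarith only [hr1] : 0 ≤ 1 - r) hr.le (by ring)
  simp only [Prod.smul_mk, smul_eq_mul, Prod.mk_add_mk] at k1
  have d1 : |η - η₀| ≤ 1 := by
    rw [abs_le]
    have := hp.1
    have := hp.2.1
    have := h.h3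
    simp only at *
    constructor <;> linarith
  have d2 : |ς - ς₀| ≤ 1 := by
    have i1 := hp.2.2.2
    have i2 := h.h2
    simp only at i1
    have i3 := abs_le.1 i1
    have i4 := abs_lt.1 i2
    rw [abs_le]
    constructor <;> linarith only [hr, hr1, i3, i4, i3.1, i3.2, i4.1, i4.2]
  have k2 := hq (r * (η - η₀)) (r * (ς - ς₀))
    (by rw [abs_mul, abs_of_pos hr]; nlinarith only [hr, d1]) (by rw [abs_mul, abs_of_pos hr]; nlinarith only [hr, d2])
  have e1 : (1 - r) * η₀ + r * η = η₀ + r * (η - η₀) := by ring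
  have e2 : (1 - r) * ς₀ + r * ς = ς₀ + r * (ς - ς₀) := by ring
  rw [e1, e2] at k1
  have k3 := k1.trans k2
  have e3 : c * ((r * (η - η₀)) ^ 2 + (r * (ς - ς₀)) ^ 2) =
      r * (c * r * ((η - η₀) ^ 2 + (ς - ς₀) ^ 2)) := by ring
  rw [e3] at k3
  have k4 : r * H a η ς ρ₀ ≤
      r * (H a η₀ ς₀ ρ₀ - c * r * ((η - η₀) ^ 2 + (ς - ς₀) ^ 2)) := by linarith only [k1, k2]
  exact le_of_mul_le_mul_left k4 hr

/-- `H` decreases in `ς` for `0 ≤ η ≤ 1/2`, `0 ≤ ς ≤ 1/2` -/
theorem H_anti_sig (a : ℕ) {η ς ς' ρ : ℝ} (h0 : 0 ≤ η) (h1 : η ≤ 1 / 2) (h2 : 0 ≤ ς)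
    (h3 : ς ≤ ς') (h4 : ς' ≤ 1 / 2) (hρ : 0 < ρ) : H a η ς' ρ ≤ H a η ς ρ := by
  have hD : ∀ s : ℝ, HasDerivAt (fun s : ℝ => H a η s ρ)
      (el ρ (η - s) - el ρ (η + s) - 2 * Real.pi * a * ρ) s := by
    intro s
    have l1 : HasDerivAt (fun s : ℝ => η + s) 1 s := (hasDerivAt_id s).const_add η
    have l2 : HasDerivAt (fun s : ℝ => η - s) (-1) s := (hasDerivAt_id s).const_sub η
    have m2 := (hasDerivAt_Lr (ρ := ρ) (x := η + s) hρ).comp s l1
    have m3 := (hasDerivAt_Lr (ρ := ρ) (x := η - s) hρ).comp s l2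
    have m4 : HasDerivAt (fun s : ℝ => Real.pi * ρ * (1 + 2 * a * s))
        (Real.pi * ρ * (2 * a * 1)) s :=
      (((hasDerivAt_id s).const_mul (2 * (a : ℝ))).const_add 1).const_mul (Real.pi * ρ)
    have key := ((m2.const_sub (2 * Lr 0 (1 / 2 + η))).sub m3).sub m4
    refine key.congr_deriv ?_
    ring
  have hanti : AntitoneOn (fun s : ℝ => H a η s ρ) (Set.Icc 0 (1 / 2)) := by
    apply antitoneOn_of_deriv_nonpos (convex_Icc _ _)
    · exact fun t _ => (hD t).continuousAt.continuousWithinAt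
    · exact fun t _ => (hD t).differentiableAt.differentiableWithinAt
    · rw [interior_Icc]
      intro s hs
      rw [(hD s).deriv]
      have hle : el ρ (η - s) ≤ el ρ (η + s) := by
        apply el_le_el
        · intro h; exact absurd h hρ.ne'
        · have e1 : 2 * Real.pi * (η + s) = 2 * Real.pi * η + 2 * Real.pi * s := by ring
          have e2 : 2 * Real.pi * (η - s) = 2 * Real.pi * η - 2 * Real.pi * s := by ring
          rw [e1, e2, Real.cos_add, Real.cos_sub]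
          have := mul_nonneg (sin_eta_nonneg h0 h1) (sin_eta_nonneg hs.1.le hs.2.le)
          linarith only [this]
      have : 0 ≤ 2 * Real.pi * a * ρ := by positivity
      linarith only [hle, this]
  exact hanti ⟨h2, h3.trans h4⟩ ⟨h2.trans h3, h4⟩ h3

theorem quad {a : ℕ} {η₀ ς₀ ρ₀ : ℝ} (h : IsSad a η₀ ς₀ ρ₀) : ∃ c : ℝ, 0 < c ∧
    ∀ η ς : ℝ, 0 ≤ η → η ≤ 1 / 2 → -(min η (1 / 4)) ≤ ς → ς ≤ 1 / 2 →
      H a η ς ρ₀ ≤ H a η₀ ς₀ ρ₀ - c * ((η - η₀) ^ 2 + (ς - ς₀) ^ 2) := by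
  obtain ⟨c, hc, hq⟩ := quad_KK h
  set δ := min (η₀ - |ς₀|) (1 / 4 - |ς₀|) with hδ
  have hδ0 : 0 < δ := lt_min (by linarith only [h, h.h1]) (by linarith only [h, h.h2])
  have hη : 0 < η₀ := lt_of_le_of_lt (abs_nonneg _) h.h1
  have hδ1 : δ ≤ 1 / 4 := (min_le_right _ _).trans (by linarith only [abs_nonneg ς₀])
  refine ⟨c * (δ ^ 2 / 2) / 2, by positivity, ?_⟩
  intro η ς h0 h1 h2 h3
  by_cases hς : ς ≤ min η (1 / 4)
  · have hp : (η, ς) ∈ KK := by
      have : |ς| ≤ min η (1 / 4) := abs_le.2 ⟨h2, hς⟩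
      exact ⟨h0, h1, this.trans (min_le_left _ _), this.trans (min_le_right _ _)⟩
    have := hq η ς hp
    have e : c * (δ ^ 2 / 2) / 2 * ((η - η₀) ^ 2 + (ς - ς₀) ^ 2) ≤
        c * ((η - η₀) ^ 2 + (ς - ς₀) ^ 2) := by
      apply mul_le_mul_of_nonneg_right _ (by positivity)
      have : δ ^ 2 / 2 / 2 ≤ 1 := by nlinarith only [hδ0, hδ1]
      calc c * (δ ^ 2 / 2) / 2 = c * (δ ^ 2 / 2 / 2) := by ring
        _ ≤ c * 1 := mul_le_mul_of_nonneg_left this hc.le
        _ = c := mul_one c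
    linarith only [this, e]
  · push Not at hς
    set b := min η (1 / 4) with hb
    have hb0 : 0 ≤ b := le_min h0 (by norm_num)
    have hp : (η, b) ∈ KK := by
      have : |b| ≤ min η (1 / 4) := by rw [abs_of_nonneg hb0]
      exact ⟨h0, h1, this.trans (min_le_left _ _), this.trans (min_le_right _ _)⟩
    have k1 := hq η b hp
    have k2 := H_anti_sig a h0 h1 hb0 hς.le h3 h.ρpos
    have k3 : δ ^ 2 / 2 ≤ (η - η₀) ^ 2 + (b - ς₀) ^ 2 := by
      have i1 := le_abs_self ς₀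
      have : δ ≤ |η - η₀| + |b - ς₀| := by
        rcases min_choice η (1 / 4) with hm | hm
        · have e : b = η := hm
          rw [e]
          have := neg_abs_le (η - η₀)
          have := le_abs_self (η - ς₀)
          have : δ ≤ η₀ - |ς₀| := min_le_left _ _
          linarith
        · have e : b = 1 / 4 := hm
          rw [e]
          have := abs_nonneg (η - η₀)
          have := le_abs_self (1 / 4 - ς₀)
          have : δ ≤ 1 / 4 - |ς₀| := min_le_right _ _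
          linarith
      have i2 := sq_abs (η - η₀)
      have i3 := sq_abs (b - ς₀)
      nlinarith only [i2, i3, hδ0, this, hδ1, sq_nonneg (|η - η₀| - |b - ς₀|), abs_nonneg (η - η₀), abs_nonneg (b - ς₀)]
    have k4 : (η - η₀) ^ 2 + (ς - ς₀) ^ 2 ≤ 2 := by
      have i4 := abs_lt.1 h.h2
      have : |η - η₀| ≤ 1 := by
        rw [abs_le]; have := h.h3; constructor <;> linarith only [hδ0, hδ1, h0, this, hη, h1]
      have : |ς - ς₀| ≤ 1 := by
        rw [abs_le]; constructor <;> linarith only [hδ0, hδ1, hς, hb0, i4, h3, i4.1, i4.2]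
      have i2 := sq_abs (η - η₀)
      have i3 := sq_abs (ς - ς₀)
      nlinarith [abs_nonneg (η - η₀), abs_nonneg (ς - ς₀)]
    have k5 : c * (δ ^ 2 / 2) / 2 * ((η - η₀) ^ 2 + (ς - ς₀) ^ 2) ≤ c * (δ ^ 2 / 2) := by
      have : 0 ≤ c * (δ ^ 2 / 2) := by positivity
      nlinarith only [hδ0, hδ1, k4, this]
    have k6 : c * (δ ^ 2 / 2) ≤ c * ((η - η₀) ^ 2 + (b - ς₀) ^ 2) :=
      mul_le_mul_of_nonneg_left k3 hc.le
    linarith only [k1, k2, k5, k6]

end Pool.Agent.Work.MP_b30479_gtS.DT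

end

section

/-!
# Uniqueness of the critical point
-/

namespace Pool.Agent.Work.MP_b30479_gtS.DT

open Finset TB AX

theorem uniq_el_zero_half {η : ℝ} (h0 : |η| < 1 / 2) :
    el 0 (1 / 2 + η) = Real.log (2 * Real.cos (Real.pi * η)) := by
  have hc : 0 < Real.cos (Real.pi * η) := by
    apply Real.cos_pos_of_mem_Ioo
    have := abs_lt.1 h0
    constructor <;> nlinarith only [this, Real.pi_pos]
  have : 2 * Real.cosh (2 * Real.pi * 0) - 2 * Real.cos (2 * Real.pi * (1 / 2 + η)) =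
      (2 * Real.cos (Real.pi * η)) ^ 2 := by
    rw [show 2 * Real.pi * (1 / 2 + η) = 2 * (Real.pi * η) + Real.pi by ring, Real.cos_add_pi,
      Real.cos_two_mul]
    simp
    ring
  rw [el, this, Real.log_pow]
  push_cast
  ring

/-- a critical point of `H(·,·,ρ)` inside `KK` is a maximum -/
theorem max_of_crit {a : ℕ} {η ς ρ : ℝ} (h1 : |ς| < η)
    (h2 : |ς| < 1 / 4) (h3 : η < 1 / 2) (hρ : 0 < ρ)
    (e1 : 2 * Real.log (2 * Real.cos (Real.pi * η)) = el ρ (η + ς) + el ρ (η - ς))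
    (e2 : el ρ (η - ς) - el ρ (η + ς) = 2 * Real.pi * a * ρ)
    {x y : ℝ} (hq : (x, y) ∈ KK) : H a x y ρ ≤ H a η ς ρ := by
  have hη : 0 < η := lt_of_le_of_lt (abs_nonneg _) h1
  have hp : (η, ς) ∈ KK := ⟨hη.le, h3.le, h1.le, h2.le⟩
  set g : ℝ → ℝ := fun t => H a (η + t * (x - η)) (ς + t * (y - ς)) ρ with hg
  have hconc : ConcaveOn ℝ (Set.Icc (0 : ℝ) 1) g := by
    have h := (concaveOn_H a hρ.le)
    refine ⟨convex_Icc 0 1, ?_⟩
    intro s hs t ht u v hu hv huv
    have hseg : ∀ r ∈ Set.Icc (0 : ℝ) 1, (η + r * (x - η), ς + r * (y - ς)) ∈ KK := by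
      intro r hr
      have := convex_KK hp hq (show (0 : ℝ) ≤ 1 - r by linarith only [hr, hr.2]) hr.1 (by ring)
      have e : (1 - r) • (η, ς) + r • (x, y) = (η + r * (x - η), ς + r * (y - ς)) := by
        ext <;> simp <;> ring
      rwa [e] at this
    have := h.2 (hseg s hs) (hseg t ht) hu hv huv
    have e : u • (η + s * (x - η), ς + s * (y - ς)) + v • (η + t * (x - η), ς + t * (y - ς)) =
        (η + (u * s + v * t) * (x - η), ς + (u * s + v * t) * (y - ς)) := by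
      ext
      · simp
        linear_combination η * huv
      · simp
        linear_combination ς * huv
    rw [e] at this
    simpa [hg, smul_eq_mul] using this
  have hder : HasDerivAt g 0 0 := by
    have hs1 : Real.sin (Real.pi * (1 / 2 + η)) ≠ 0 := by
      rw [show Real.pi * (1 / 2 + η) = Real.pi * η + Real.pi / 2 by ring, Real.sin_add_pi_div_two]
      refine (Real.cos_pos_of_mem_Ioo ⟨?_, ?_⟩).ne' <;> nlinarith only [hη, h3, Real.pi_pos]
    have l1 : HasDerivAt (fun t : ℝ => 1 / 2 + (η + t * (x - η))) (x - η) 0 := by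
      simpa using (((hasDerivAt_id (0 : ℝ)).mul_const (x - η)).const_add η).const_add (1 / 2)
    have l2 : HasDerivAt (fun t : ℝ => (η + t * (x - η)) + (ς + t * (y - ς)))
        ((x - η) + (y - ς)) 0 := by
      simpa using HasDerivAt.fun_add (((hasDerivAt_id (0 : ℝ)).mul_const (x - η)).const_add η)
        (((hasDerivAt_id (0 : ℝ)).mul_const (y - ς)).const_add ς)
    have l3 : HasDerivAt (fun t : ℝ => (η + t * (x - η)) - (ς + t * (y - ς)))
        ((x - η) - (y - ς)) 0 := by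
      simpa using HasDerivAt.fun_sub (((hasDerivAt_id (0 : ℝ)).mul_const (x - η)).const_add η)
        (((hasDerivAt_id (0 : ℝ)).mul_const (y - ς)).const_add ς)
    have l4 : HasDerivAt (fun t : ℝ => ς + t * (y - ς)) (y - ς) 0 := by
      simpa using ((hasDerivAt_id (0 : ℝ)).mul_const (y - ς)).const_add ς
    have d1 : HasDerivAt (fun t : ℝ => Lr 0 (1 / 2 + (η + t * (x - η))))
        (el 0 (1 / 2 + η) * (x - η)) 0 := by
      have := HasDerivAt.comp (h₂ := fun x => Lr 0 x) (0 : ℝ)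
        (by simpa using hasDerivAt_Lr_zero hs1) l1
      simpa [Function.comp_def] using this
    have d2 : HasDerivAt (fun t : ℝ => Lr ρ ((η + t * (x - η)) + (ς + t * (y - ς))))
        (el ρ (η + ς) * ((x - η) + (y - ς))) 0 := by
      have := HasDerivAt.comp (h₂ := fun x => Lr ρ x) (0 : ℝ)
        (by simpa using hasDerivAt_Lr (x := η + ς) hρ) l2
      simpa [Function.comp_def] using this
    have d3 : HasDerivAt (fun t : ℝ => Lr ρ ((η + t * (x - η)) - (ς + t * (y - ς))))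
        (el ρ (η - ς) * ((x - η) - (y - ς))) 0 := by
      have := HasDerivAt.comp (h₂ := fun x => Lr ρ x) (0 : ℝ)
        (by simpa using hasDerivAt_Lr (x := η - ς) hρ) l3
      simpa [Function.comp_def] using this
    have d4 : HasDerivAt (fun t : ℝ => Real.pi * ρ * (1 + 2 * a * (ς + t * (y - ς))))
        (Real.pi * ρ * (2 * a * (y - ς))) 0 := by
      simpa using ((l4.const_mul (2 * (a : ℝ))).const_add 1).const_mul (Real.pi * ρ)
    have := (((d1.const_mul 2).sub d2).sub d3).sub d4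
    have e : 2 * (el 0 (1 / 2 + η) * (x - η)) - el ρ (η + ς) * (x - η + (y - ς)) -
        el ρ (η - ς) * (x - η - (y - ς)) - Real.pi * ρ * (2 * a * (y - ς)) = 0 := by
      rw [uniq_el_zero_half (by rw [abs_of_pos hη]; exact h3)]
      linear_combination (x - η) * e1 + (y - ς) * e2
    rw [e] at this
    exact this
  have := hconc.slope_le_of_hasDerivAt (x := 0) (y := 1) (by simp) (by simp) one_pos hder
  rw [slope_def_field] at this
  have e0 : g 0 = H a η ς ρ := by simp [hg]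
  have e1' : g 1 = H a x y ρ := by simp [hg]
  rw [e0, e1'] at this
  linarith only [this]

/-- the derivative of `H` in `ρ` -/
theorem uniq_hasDerivAt_H_rho (a : ℕ) {η ς ρ : ℝ} (hρ : 0 < ρ) :
    HasDerivAt (fun r => H a η ς r)
      (-Tr ρ (η + ς) - Tr ρ (η - ς) - Real.pi * (1 + 2 * a * ς)) ρ := by
  have d4 : HasDerivAt (fun r : ℝ => Real.pi * r * (1 + 2 * a * ς))
      (Real.pi * (1 + 2 * a * ς)) ρ := by
    simpa using ((hasDerivAt_id ρ).const_mul Real.pi).mul_const (1 + 2 * (a : ℝ) * ς)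
  have := (((hasDerivAt_const ρ (2 * Lr 0 (1 / 2 + η))).sub (hasDerivAt_Lr_left (x := η + ς) hρ)).sub
    (hasDerivAt_Lr_left (x := η - ς) hρ)).sub d4
  rw [zero_sub] at this
  exact this

/-- a critical point of `H(η,ς,·)` is a minimum -/
theorem min_of_crit {a : ℕ} {η ς ρ : ℝ} (hp : (η, ς) ∈ KK) (hρ : 0 < ρ)
    (e3 : Tr ρ (η + ς) + Tr ρ (η - ς) + Real.pi * (1 + 2 * a * ς) = 0) {r : ℝ} (hr : 0 ≤ r) :
    H a η ς ρ ≤ H a η ς r := by
  have hc := convexOn_H a hp
  have hd : HasDerivAt (fun r => H a η ς r) 0 ρ := by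
    have := uniq_hasDerivAt_H_rho a (η := η) (ς := ς) hρ
    rwa [show -Tr ρ (η + ς) - Tr ρ (η - ς) - Real.pi * (1 + 2 * a * ς) = 0 by
      linarith only [e3]] at this
  rcases lt_trichotomy ρ r with h | h | h
  · have := hc.le_slope_of_hasDerivAt (x := ρ) (y := r) hρ.le hr h hd
    rw [slope_def_field] at this
    have := mul_nonneg this (sub_nonneg.2 h.le)
    rw [div_mul_cancel₀ _ (sub_pos.2 h).ne'] at this
    linarith only [this]
  · rw [h]
  · have := hc.slope_le_of_hasDerivAt (x := r) (y := ρ) hr hρ.le h hd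
    rw [slope_def_field] at this
    have := mul_nonpos_of_nonpos_of_nonneg this (sub_nonneg.2 h.le)
    rw [div_mul_cancel₀ _ (sub_pos.2 h).ne'] at this
    linarith only [this]

theorem strictMono_Hrho {a : ℕ} {η ς : ℝ} (h1 : |ς| < η) (h2 : |ς| < 1 / 4) (h3 : η < 1 / 2) :
    StrictMonoOn (fun r => -Tr r (η + ς) - Tr r (η - ς) - Real.pi * (1 + 2 * a * ς))
      (Set.Ioi (0 : ℝ)) := by
  have hη : 0 < η := lt_of_le_of_lt (abs_nonneg _) h1
  have hd : ∀ r ∈ Set.Ioi (0 : ℝ), HasDerivAt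
      (fun r => -Tr r (η + ς) - Tr r (η - ς) - Real.pi * (1 + 2 * a * ς))
      (Real.pi * (rr r (η + ς) + rr r (η - ς))) r := by
    intro r hr
    have := (((hasDerivAt_Tr_left (x := η + ς) hr).neg).sub
      (hasDerivAt_Tr_left (x := η - ς) hr)).sub_const (Real.pi * (1 + 2 * a * ς))
    have e : Real.pi * (rr r (η + ς) + rr r (η - ς)) =
        -(-(Real.pi * rr r (η + ς))) - -(Real.pi * rr r (η - ς)) := by ring
    rw [e]
    exact this
  apply strictMonoOn_of_deriv_pos (convex_Ioi 0)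
  · intro r hr
    exact (hd r hr).continuousAt.continuousWithinAt
  · intro r hr
    rw [interior_Ioi] at hr
    rw [(hd r hr).deriv]
    exact mul_pos Real.pi_pos (rr_add_pos hη h3 h1.le h2 hr)

theorem crit_unique {a : ℕ} {η₀ ς₀ ρ₀ : ℝ} (h : IsSad a η₀ ς₀ ρ₀) {η ς ρ : ℝ} (h1 : |ς| < η)
    (h2 : |ς| < 1 / 4) (h3 : η < 1 / 2) (hρ : 0 < ρ)
    (e1 : 2 * Real.log (2 * Real.cos (Real.pi * η)) = el ρ (η + ς) + el ρ (η - ς))
    (e2 : el ρ (η - ς) - el ρ (η + ς) = 2 * Real.pi * a * ρ)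
    (e3 : Tr ρ (η + ς) + Tr ρ (η - ς) + Real.pi * (1 + 2 * a * ς) = 0) :
    η = η₀ ∧ ς = ς₀ ∧ ρ = ρ₀ := by
  have hη : 0 < η := lt_of_le_of_lt (abs_nonneg _) h1
  have hη₀ : 0 < η₀ := lt_of_le_of_lt (abs_nonneg _) h.h1
  have hp : (η, ς) ∈ KK := ⟨hη.le, h3.le, h1.le, h2.le⟩
  have hp₀ : (η₀, ς₀) ∈ KK := ⟨hη₀.le, h.h3.le, h.h1.le, h.h2.le⟩
  have i1 : H a η₀ ς₀ ρ ≤ H a η ς ρ := max_of_crit h1 h2 h3 hρ e1 e2 hp₀
  have i2 : H a η ς ρ ≤ H a η ς ρ₀ := min_of_crit hp hρ e3 h.ρpos.le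
  have i3 := h.min ρ hρ.le
  obtain ⟨c, hc, hq⟩ := quad h
  have hς := abs_lt.1 h1
  have hς' := abs_lt.1 h2
  have i4 := hq η ς hη.le h3.le
    (by
      rw [neg_le]
      apply le_min <;> linarith only [hς, hς']) (by linarith only [h3, hς])
  have hz : (η - η₀) ^ 2 + (ς - ς₀) ^ 2 ≤ 0 := by
    by_contra hcon
    push Not at hcon
    have := mul_pos hc hcon
    linarith only [i1, i2, i3, i4, this]
  have z1 : η = η₀ := by nlinarith only [hz, sq_nonneg (η - η₀), sq_nonneg (ς - ς₀)]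
  have z2 : ς = ς₀ := by nlinarith only [hz, sq_nonneg (η - η₀), sq_nonneg (ς - ς₀)]
  refine ⟨z1, z2, ?_⟩
  subst z1 z2
  have hm := (strictMono_Hrho (a := a) h1 h2 h3).injOn
  apply hm hρ h.ρpos
  have := (crit_real h).2.2
  simp only
  linarith only [e3, this]

end Pool.Agent.Work.MP_b30479_gtS.DT

end

section

/-!
# The geometric solution
-/

namespace Pool.Agent.Work.MP_b30479_gtS.DT

open Finset TB AX

section
variable {ς ρ η : ℝ}

lemma geom_norm_lt (hρ : 0 < ρ) (x : ℝ) :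
    ‖Complex.exp (2 * Real.pi * Complex.I * ((x : ℂ) + ρ * Complex.I))‖ < 1 := by
  have e : (2 * Real.pi * Complex.I * ((x : ℂ) + ρ * Complex.I)) =
      ((-(2 * Real.pi * ρ) : ℝ) : ℂ) + ((2 * Real.pi * x : ℝ) : ℂ) * Complex.I := by
    push_cast
    linear_combination (2 * Real.pi * ρ : ℂ) * Complex.I_sq
  rw [e, Complex.exp_add, norm_mul, Complex.norm_exp_ofReal_mul_I, mul_one, Complex.norm_exp,
    Complex.ofReal_re, Real.exp_lt_one_iff]
  have := Real.pi_pos
  have : 0 < 2 * Real.pi * ρ := by positivity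
  linarith only [this]

lemma geom_re (hρ : 0 < ρ) (x : ℝ) :
    0 < (1 - Complex.exp (2 * Real.pi * Complex.I * ((x : ℂ) + ρ * Complex.I))).re := by
  have h1 := geom_norm_lt hρ x
  have h2 := Complex.re_le_norm (Complex.exp (2 * Real.pi * Complex.I * ((x : ℂ) + ρ * Complex.I)))
  rw [Complex.sub_re, Complex.one_re]
  linarith only [h1, h2]

lemma geom_pos (hρ : 0 < ρ) (x : ℝ) :
    0 < ‖1 - Complex.exp (2 * Real.pi * Complex.I * ((x : ℂ) + ρ * Complex.I))‖ := by
  rw [norm_pos_iff]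
  intro h
  have := geom_re hρ x
  rw [h] at this
  simp at this

lemma geom_conj (x : ℝ) :
    Complex.exp (2 * Real.pi * Complex.I * (((-x : ℝ) : ℂ) + ρ * Complex.I)) =
      (starRingEnd ℂ) (Complex.exp (2 * Real.pi * Complex.I * ((x : ℂ) + ρ * Complex.I))) := by
  rw [← Complex.exp_conj]
  congr 1
  simp only [map_mul, map_add, Complex.conj_ofReal, Complex.conj_I, map_ofNat]
  push_cast
  ring

lemma geom_arg (hρ : 0 < ρ) (x : ℝ) :
    (1 - Complex.exp (2 * Real.pi * Complex.I * (((-x : ℝ) : ℂ) + ρ * Complex.I))).arg =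
      -(1 - Complex.exp (2 * Real.pi * Complex.I * ((x : ℂ) + ρ * Complex.I))).arg := by
  rw [geom_conj]
  set E := Complex.exp (2 * Real.pi * Complex.I * ((x : ℂ) + ρ * Complex.I)) with hE
  have e : (1 - (starRingEnd ℂ) E) = (starRingEnd ℂ) (1 - E) := by
    simp only [map_sub, map_one]
  rw [e, Complex.arg_conj, if_neg]
  intro hcon
  rw [Complex.arg_eq_pi_iff] at hcon
  have := geom_re hρ x
  rw [← hE] at this
  linarith only [hcon, this, hcon.1]

end

/-- the saddle point solves the equations -/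
theorem geom_of_sad {a : ℕ} {η ς ρ : ℝ} (h : IsSad a η ς ρ) : IsGeom a η (ς + ρ * Complex.I) := by
  have e1 : ((ς : ℂ) + ρ * Complex.I).im = ρ := by simp
  have e2 : ((ς : ℂ) + ρ * Complex.I).re = ς := by simp
  have hρ := h.ρpos
  have hpi := Real.pi_pos
  have hη0 : 0 < η := lt_of_le_of_lt (abs_nonneg _) h.h1
  have hcos : 0 < Real.cos (Real.pi * η) := by
    apply Real.cos_pos_of_mem_Ioo
    have := h.h3
    constructor <;> nlinarith only [hpi, hη0, this]
  refine ⟨by rw [e1]; exact hρ, by rw [e2]; exact h.h1, by rw [e2]; exact h.h2, h.h3,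
    crit_complex h, ?_⟩
  obtain ⟨c1, -, -⟩ := crit_real h
  rw [e1]
  have f1 : (ς : ℂ) + ρ * Complex.I - η = ((ς - η : ℝ) : ℂ) + ρ * Complex.I := by push_cast; ring
  have f2 : (ς : ℂ) + ρ * Complex.I + η = ((η + ς : ℝ) : ℂ) + ρ * Complex.I := by push_cast; ring
  rw [f1, f2]
  rw [← el_neg ρ (η - ς), neg_sub, el_eq_exp hρ.ne', el_eq_exp hρ.ne'] at c1
  have p1 := geom_pos hρ (η + ς)
  have p2 := geom_pos hρ (ς - η)
  set A := ‖1 - Complex.exp (2 * Real.pi * Complex.I * (((η + ς : ℝ) : ℂ) + ρ * Complex.I))‖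
  set B := ‖1 - Complex.exp (2 * Real.pi * Complex.I * (((ς - η : ℝ) : ℂ) + ρ * Complex.I))‖
  have c2 : Real.log (B * A) = Real.log (4 * Real.cos (Real.pi * η) ^ 2 *
      Real.exp (-(2 * Real.pi * ρ))) := by
    rw [Real.log_mul p2.ne' p1.ne', Real.log_mul (by positivity) (Real.exp_ne_zero _),
      Real.log_exp, show 4 * Real.cos (Real.pi * η) ^ 2 = (2 * Real.cos (Real.pi * η)) ^ 2 by ring,
      Real.log_pow]
    push_cast
    linarith only [c1]
  exact Real.log_injOn_pos (Set.mem_Ioi.mpr (by positivity)) (Set.mem_Ioi.mpr (by positivity)) c2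

/-- uniqueness -/
theorem geom_unique {a : ℕ} {η₀ ς₀ ρ₀ : ℝ} (h : IsSad a η₀ ς₀ ρ₀) {η : ℝ} {u : ℂ}
    (hg : IsGeom a η u) : η = η₀ ∧ u = ς₀ + ρ₀ * Complex.I := by
  set ς : ℝ := u.re with hς
  set ρ : ℝ := u.im with hρd
  have hu : u = ς + ρ * Complex.I := (Complex.re_add_im u).symm
  have hρ : 0 < ρ := hg.im_pos
  have hpi := Real.pi_pos
  have hη0 : 0 < η := lt_of_le_of_lt (abs_nonneg _) hg.re_lt
  have hcos : 0 < Real.cos (Real.pi * η) := by
    apply Real.cos_pos_of_mem_Ioo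
    have := hg.lt_half
    constructor <;> nlinarith only [hpi, hη0, this]
  have f1 : u - η = ((-(η - ς) : ℝ) : ℂ) + ρ * Complex.I := by rw [hu]; push_cast; ring
  have f2 : u + η = ((η + ς : ℝ) : ℂ) + ρ * Complex.I := by rw [hu]; push_cast; ring
  have g1 := hg.filling
  have g2 := hg.gluing
  rw [f1, f2] at g1 g2
  have p1 := geom_pos hρ (η + ς)
  have p2 := geom_pos hρ (-(η - ς))
  have l1 : el ρ (η + ς) = Real.pi * ρ + Real.log
      ‖1 - Complex.exp (2 * Real.pi * Complex.I * (((η + ς : ℝ) : ℂ) + ρ * Complex.I))‖ :=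
    el_eq_exp hρ.ne'
  have l2 : el ρ (η - ς) = Real.pi * ρ + Real.log
      ‖1 - Complex.exp (2 * Real.pi * Complex.I * (((-(η - ς) : ℝ) : ℂ) + ρ * Complex.I))‖ := by
    rw [← el_neg]
    exact el_eq_exp hρ.ne'
  have t1 : Tr ρ (η + ς) = Real.pi * (η + ς) -
      (1 - Complex.exp (2 * Real.pi * Complex.I * (((η + ς : ℝ) : ℂ) + ρ * Complex.I))).arg := rfl
  have t2 : Tr ρ (η - ς) = Real.pi * (η - ς) +
      (1 - Complex.exp (2 * Real.pi * Complex.I *
        (((-(η - ς) : ℝ) : ℂ) + ρ * Complex.I))).arg := by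
    rw [geom_arg hρ]
    unfold Tr
    ring
  have r1 := congrArg Complex.re g1
  have r2 := congrArg Complex.im g1
  have s1 : (2 * Real.pi * Complex.I * (a * u + 1 / 2 + η)).re = -(2 * Real.pi * a * ρ) := by
    rw [hu]
    simp only [Complex.add_re, Complex.mul_re,
      Complex.re_ofNat, Complex.ofReal_re, Complex.im_ofNat, Complex.ofReal_im, mul_zero,
      sub_zero, Complex.I_re, Complex.mul_im, zero_mul, add_zero, Complex.I_im, mul_one,
      Complex.natCast_re, Complex.natCast_im, Complex.add_im, zero_add,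
      sub_self, Complex.div_im, Complex.one_im, Complex.one_re, Complex.div_re]
    norm_num
    ring
  have s2 : (2 * Real.pi * Complex.I * (a * u + 1 / 2 + η)).im =
      2 * Real.pi * (a * ς + 1 / 2 + η) := by
    rw [hu]
    simp only [Complex.add_re, Complex.mul_re,
      Complex.re_ofNat, Complex.ofReal_re, Complex.im_ofNat, Complex.ofReal_im, mul_zero,
      sub_zero, Complex.I_re, Complex.mul_im, zero_mul, add_zero, Complex.I_im, mul_one,
      Complex.natCast_re, Complex.natCast_im, Complex.add_im, zero_add,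
      sub_self, Complex.div_im, Complex.one_im, Complex.one_re, Complex.div_re]
    norm_num
  rw [Complex.add_re, Complex.sub_re, Complex.log_re, Complex.log_re, s1, Complex.zero_re] at r1
  rw [Complex.add_im, Complex.sub_im, Complex.log_im, Complex.log_im, s2, Complex.zero_im] at r2
  have key := crit_unique h hg.re_lt hg.re_lt' hg.lt_half hρ
    (by
      have c2 := congrArg Real.log g2
      rw [Real.log_mul p2.ne' p1.ne', Real.log_mul (by positivity) (Real.exp_ne_zero _),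
        Real.log_exp, show 4 * Real.cos (Real.pi * η) ^ 2 = (2 * Real.cos (Real.pi * η)) ^ 2 by
          ring, Real.log_pow, Nat.cast_ofNat] at c2
      rw [l1, l2]
      linarith only [c2])
    (by rw [l1, l2]; linarith only [r1])
    (by rw [t1, t2]; linarith only [r2])
  exact ⟨key.1, by rw [hu, show ς = ς₀ from key.2.1, show ρ = ρ₀ from key.2.2]⟩

theorem vol_of_sad {a : ℕ} {η ς ρ : ℝ} (h : IsSad a η ς ρ) :
    4 * Real.pi * H a η ς ρ = volDT η (ς + ρ * Complex.I) := by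
  rw [vol_BW h]
  unfold volDT
  have e : (starRingEnd ℂ) ((ς : ℂ) + ρ * Complex.I) = ς - ρ * Complex.I := by
    simp only [map_add, map_mul, Complex.conj_ofReal, Complex.conj_I]
    ring
  rw [e]

end Pool.Agent.Work.MP_b30479_gtS.DT

end

section

/-!
# Positively oriented solution
-/

namespace Pool.Agent.Work.MP_b30479_gtS.DT

open Finset TB AX

lemma Tr_zero {ρ : ℝ} (hρ : 0 < ρ) : Tr ρ 0 = 0 := by
  have h1 := geom_arg hρ 0
  rw [neg_zero] at h1
  have h2 : (1 - Complex.exp (2 * Real.pi * Complex.I * (((0 : ℝ) : ℂ) + ρ * Complex.I))).arg = 0 := by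
    linarith only [h1]
  unfold Tr
  rw [h2]
  ring

lemma Tr_one_sub {ρ : ℝ} (hρ : 0 < ρ) (x : ℝ) : Tr ρ (1 - x) = Real.pi - Tr ρ x := by
  have h1 := geom_arg hρ x
  have e : Complex.exp (2 * Real.pi * Complex.I * (((1 - x : ℝ) : ℂ) + ρ * Complex.I)) =
      Complex.exp (2 * Real.pi * Complex.I * (((-x : ℝ) : ℂ) + ρ * Complex.I)) := by
    rw [show (2 * Real.pi * Complex.I * (((1 - x : ℝ) : ℂ) + ρ * Complex.I)) =
      2 * Real.pi * Complex.I * (((-x : ℝ) : ℂ) + ρ * Complex.I) + 2 * Real.pi * Complex.I by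
        push_cast; ring, Complex.exp_add, Complex.exp_two_pi_mul_I, mul_one]
  unfold Tr
  rw [e, h1]
  ring

lemma Tr_strictMono {ρ : ℝ} (hρ : 0 < ρ) : StrictMono (fun x => Tr ρ x) := by
  apply strictMono_of_deriv_pos
  intro x
  rw [(hasDerivAt_Tr_right hρ).deriv]
  have h1 : 0 < Real.sinh (2 * Real.pi * ρ) := by
    rw [Real.sinh_pos_iff]
    have := Real.pi_pos
    positivity
  have h2 : 1 < Real.cosh (2 * Real.pi * ρ) := by
    rw [Real.one_lt_cosh]
    have := Real.pi_pos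
    positivity
  have h3 := Real.cos_le_one (2 * Real.pi * x)
  have := Real.pi_pos
  apply div_pos (by positivity)
  linarith only [h2, h3]

/-- location of `Re u` -/
theorem sad_re {a : ℕ} {η ς ρ : ℝ} (h : IsSad a η ς ρ) : -1 < a * ς ∧ a * ς < -(1 / 2) := by
  obtain ⟨-, -, h3⟩ := crit_real h
  have hρ := h.ρpos
  have hpi := Real.pi_pos
  have ha := abs_lt.mp h.h1
  have hs := Tr_strictMono hρ
  have t1 : 0 < Tr ρ (η + ς) := by
    have := hs (show (0 : ℝ) < η + ς by linarith only [ha])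
    simp only at this
    rwa [Tr_zero hρ] at this
  have t2 : 0 < Tr ρ (η - ς) := by
    have := hs (show (0 : ℝ) < η - ς by linarith only [ha])
    simp only at this
    rwa [Tr_zero hρ] at this
  have t3 : Tr ρ (η + ς) < Tr ρ (1 - (η - ς)) := hs (by linarith only [h, h.h3])
  rw [Tr_one_sub hρ] at t3
  constructor
  · by_contra hc
    push Not at hc
    nlinarith only [h3, t3, hpi, hc]
  · by_contra hc
    push Not at hc
    nlinarith only [h3, t1, t2, hpi, hc]

/-- for `a ≥ 6` all eight ideal tetrahedra are positively oriented -/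
theorem sad_shapes {a : ℕ} (ha : 6 ≤ a) {η ς ρ : ℝ} (h : IsSad a η ς ρ) : η - ς < 1 / 2 := by
  by_contra hc
  push Not at hc
  obtain ⟨r1, r2⟩ := sad_re h
  have hρ := h.ρpos
  have hpi := Real.pi_pos
  have ha' : (6 : ℝ) ≤ a := by exact_mod_cast ha
  have h1 := abs_lt.mp h.h1
  have h3 := h.h3
  have hς0 : ς < 0 := by
    by_contra h0
    push Not at h0
    have : 0 ≤ (a : ℝ) * ς := by positivity
    linarith only [hc, h3, h0]
  have hς6 : -(1 / 6) < ς := by
    by_contra h0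
    push Not at h0
    nlinarith only [r1, ha', h0]
  obtain ⟨c1, -, -⟩ := crit_real h
  have s1 : 0 < Real.sin (Real.pi * (η + ς)) :=
    Real.sin_pos_of_pos_of_lt_pi (by nlinarith only [hpi, h1]) (by nlinarith only [hc, hpi, r1, r2, h3])
  have s2 : 0 < Real.sin (Real.pi * (η - ς)) :=
    Real.sin_pos_of_pos_of_lt_pi (by nlinarith only [hpi, hc]) (by nlinarith only [hpi, h1, h3])
  have hcos : 0 < Real.cos (Real.pi * η) := by
    apply Real.cos_pos_of_mem_Ioo
    constructor <;> nlinarith only [hc, hpi, r1, r2, h1, h3]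
  have m1 := el_mono le_rfl hρ.le (fun _ => s1.ne')
  have m2 := el_mono le_rfl hρ.le (fun _ => s2.ne')
  rw [el_zero] at m1 m2
  unfold Lob.ff at m1 m2
  have m3 : Real.log (2 * Real.sin (Real.pi * (η + ς)) * (2 * Real.sin (Real.pi * (η - ς)))) ≤
      Real.log ((2 * Real.cos (Real.pi * η)) ^ 2) := by
    rw [Real.log_mul (by positivity) (by positivity), Real.log_pow]
    push_cast
    linarith only [c1, m1, m2]
  rw [Real.log_le_log_iff (by positivity) (by positivity)] at m3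
  have e1 : 2 * Real.sin (Real.pi * (η + ς)) * (2 * Real.sin (Real.pi * (η - ς))) =
      2 * Real.cos (2 * Real.pi * ς) - 2 * Real.cos (2 * Real.pi * η) := by
    have f1 : Real.cos (2 * Real.pi * ς) = Real.cos (Real.pi * (η + ς) - Real.pi * (η - ς)) := by
      congr 1; ring
    have f2 : Real.cos (2 * Real.pi * η) = Real.cos (Real.pi * (η + ς) + Real.pi * (η - ς)) := by
      congr 1; ring
    rw [f1, f2, Real.cos_sub, Real.cos_add]
    ring
  have e2 : (2 * Real.cos (Real.pi * η)) ^ 2 = 2 + 2 * Real.cos (2 * Real.pi * η) := by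
    rw [show 2 * Real.pi * η = 2 * (Real.pi * η) by ring, Real.cos_two_mul]
    ring
  rw [e1, e2] at m3
  have e3 : Real.cos (2 * Real.pi * η) ≤ -Real.cos (2 * Real.pi * ς) := by
    rw [← Real.cos_pi_sub, ← Real.cos_neg (Real.pi - 2 * Real.pi * ς)]
    rw [← Real.cos_neg (2 * Real.pi * η)]
    rw [Real.cos_neg, Real.cos_neg]
    have e4 : Real.cos (Real.pi - 2 * Real.pi * ς) = Real.cos (Real.pi + 2 * Real.pi * ς) := by
      rw [Real.cos_pi_sub, add_comm, Real.cos_add_pi]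
    rw [e4]
    apply Real.cos_le_cos_of_nonneg_of_le_pi
    · nlinarith only [r1, hpi, r2, ha']
    · nlinarith only [r1, r2, hpi, h3]
    · nlinarith only [hc, hpi]
  have e5 : 1 / 2 < Real.cos (2 * Real.pi * ς) := by
    rw [← Real.cos_pi_div_three, ← Real.cos_neg (2 * Real.pi * ς)]
    apply Real.cos_lt_cos_of_nonneg_of_le_pi
    · nlinarith only [hpi, r2]
    · nlinarith only [hpi]
    · nlinarith only [r1, hpi, ha']
  linarith only [hς0, hς6, m3, e3, e5]

end Pool.Agent.Work.MP_b30479_gtS.DT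

end
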